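import Pool.Agent.X282.QV.Fix

set_option autoImplicit false

namespace Pool.Agent.X282.QV

open MeasureTheory intervalIntegral Set Filter Topology

lemma gauss_part {B : ℝ} (hB : 0 < B) {s : ℝ} (hs : 0 ≤ s) :
    ∫ t in (0:ℝ)..s, Real.exp (-B * (t - 1) ^ 2) ≤ Real.sqrt (Real.pi / B) := by
  have h1 : ∫ t in (0:ℝ)..s, Real.exp (-B * (t - 1) ^ 2) =
      ∫ u in (0 - 1 : ℝ)..(s - 1), Real.exp (-B * u ^ 2) :=
    intervalIntegral.integral_comp_sub_right (fun u => Real.exp (-B * u ^ 2)) 1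
  rw [h1, intervalIntegral.integral_of_le (by linarith), ← integral_gaussian B]
  exact setIntegral_le_integral (integrable_exp_neg_mul_sq hB)
    (Eventually.of_forall fun x => (Real.exp_pos _).le)

section est

variable {m : ℕ} {f : ℝ → ℝ} {K ε δ : ℝ}

lemma it_contDiff1 (m k : ℕ) {f : ℝ → ℝ} (hf : ContDiff ℝ 1 f) : ContDiff ℝ 1 ((Tp m)^[k] f) :=
  (itTp_contDiff m k 1 (by exact_mod_cast hf)).of_le (by exact_mod_cast (by omega : 1 ≤ 1 + k))

lemma it_one_le (hm : 2 ≤ m) (hf : ContDiff ℝ 1 f) (h0 : ∀ s, 0 ≤ s → 0 ≤ f s)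
    (hK : ∀ s, 0 ≤ s → ∫ t in (0:ℝ)..s, f t ≤ K) {s : ℝ} (hs : 0 ≤ s) : Tp m f s ≤ K :=
  (Tp_le_integral m hm hf h0 hs).trans (hK s hs)

lemma it_pow_le (hm : 2 ≤ m) (hf : ContDiff ℝ 1 f) (h0 : ∀ s, 0 ≤ s → 0 ≤ f s) (hK0 : 0 ≤ K)
    (hK : ∀ s, 0 ≤ s → ∫ t in (0:ℝ)..s, f t ≤ K) (k : ℕ) {s : ℝ} (hs : 0 ≤ s) :
    (Tp m)^[k+1] f s ≤ K * s ^ k := by
  induction k generalizing s with
  | zero => simpa using it_one_le hm hf h0 hK hs
  | succ k ih =>
    rw [Function.iterate_succ_apply']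
    refine (Tp_le_integral m hm (it_contDiff1 m (k+1) hf) (fun s hs => itTp_nonneg m _ h0 hs) hs).trans ?_
    have h1 : ∫ t in (0:ℝ)..s, (Tp m)^[k+1] f t ≤ ∫ t in (0:ℝ)..s, K * s ^ k := by
      refine intervalIntegral.integral_mono_on hs
        ((itTp_continuous m _ hf.continuous).intervalIntegrable _ _) (by simp) fun t ht => ?_
      refine (ih ht.1).trans ?_
      refine mul_le_mul_of_nonneg_left ?_ hK0
      exact pow_le_pow_left₀ ht.1 ht.2 _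
    refine h1.trans (le_of_eq ?_)
    simp only [intervalIntegral.integral_const, smul_eq_mul, sub_zero]
    ring

lemma it_two_le (hm : 2 ≤ m) (hf : ContDiff ℝ 1 f) (h0 : ∀ s, 0 ≤ s → 0 ≤ f s) (hK0 : 0 ≤ K)
    (hK : ∀ s, 0 ≤ s → ∫ t in (0:ℝ)..s, f t ≤ K) (hδ0 : 0 < δ) (hδ1 : δ ≤ 1) (hε0 : 0 ≤ ε)
    (hε : ∀ s, 0 ≤ s → s ≤ 1 - δ → f s ≤ ε) {s : ℝ} (hs : 0 ≤ s) (hs1 : s ≤ 1 + δ) :
    (Tp m)^[2] f s ≤ ε + 2 * δ * K := by
  have hT : ∀ s, 0 ≤ s → 0 ≤ Tp m f s := fun s hs => Tp_nonneg m h0 hs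
  have hTc : Continuous (Tp m f) := continuous_Tp m hf.continuous
  have hTi : ∀ a b, IntervalIntegrable (Tp m f) volume a b := fun a b => hTc.intervalIntegrable _ _
  have h1 : (Tp m)^[2] f s ≤ ∫ t in (0:ℝ)..s, Tp m f t :=
    Tp_le_integral m hm (by simpa using it_contDiff1 m 1 hf) hT hs
  have h2 : ∫ t in (0:ℝ)..s, Tp m f t ≤ ∫ t in (0:ℝ)..(1+δ), Tp m f t := by
    rw [← intervalIntegral.integral_add_adjacent_intervals (hTi 0 s) (hTi s (1+δ))]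
    have := intervalIntegral.integral_nonneg (μ := volume) (f := Tp m f) hs1 (fun t ht => hT t (hs.trans ht.1))
    linarith
  have h3 : ∫ t in (0:ℝ)..(1+δ), Tp m f t =
      (∫ t in (0:ℝ)..(1-δ), Tp m f t) + ∫ t in (1-δ)..(1+δ), Tp m f t :=
    (intervalIntegral.integral_add_adjacent_intervals (hTi _ _) (hTi _ _)).symm
  have h4 : ∫ t in (0:ℝ)..(1-δ), Tp m f t ≤ ∫ t in (0:ℝ)..(1-δ), ε := by
    refine intervalIntegral.integral_mono_on (by linarith) (hTi _ _) (by simp) fun t ht => ?_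
    refine (Tp_le_integral m hm hf h0 ht.1).trans ?_
    have h5 : ∫ u in (0:ℝ)..t, f u ≤ ∫ u in (0:ℝ)..t, ε := by
      refine intervalIntegral.integral_mono_on ht.1 (hf.continuous.intervalIntegrable _ _) (by simp)
        fun u hu => hε u hu.1 (hu.2.trans ht.2)
    refine h5.trans ?_
    simp
    nlinarith [ht.1, ht.2]
  have h6 : ∫ t in (1-δ)..(1+δ), Tp m f t ≤ ∫ t in (1-δ)..(1+δ), K := by
    refine intervalIntegral.integral_mono_on (by linarith) (hTi _ _) (by simp) fun t ht => ?_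
    exact it_one_le hm hf h0 hK (by linarith [ht.1])
  simp only [intervalIntegral.integral_const, smul_eq_mul, sub_zero] at h4 h6
  have h7 : (1 - δ) * ε ≤ ε := by nlinarith
  have h8 : (1 + δ - (1 - δ)) * K = 2 * δ * K := by ring
  linarith

lemma it_two_pow_le (hm : 2 ≤ m) (hf : ContDiff ℝ 1 f) (h0 : ∀ s, 0 ≤ s → 0 ≤ f s) (hK0 : 0 ≤ K)
    (hK : ∀ s, 0 ≤ s → ∫ t in (0:ℝ)..s, f t ≤ K) (hδ0 : 0 < δ) (hδ1 : δ ≤ 1) (hε0 : 0 ≤ ε)
    (hε : ∀ s, 0 ≤ s → s ≤ 1 - δ → f s ≤ ε) (k : ℕ) {s : ℝ} (hs : 0 ≤ s) (hs1 : s ≤ 1 + δ) :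
    (Tp m)^[k+2] f s ≤ (ε + 2 * δ * K) * 2 ^ k := by
  induction k generalizing s with
  | zero => simpa using it_two_le hm hf h0 hK0 hK hδ0 hδ1 hε0 hε hs hs1
  | succ k ih =>
    rw [show k + 1 + 2 = (k + 2) + 1 by ring, Function.iterate_succ_apply']
    refine (Tp_le_integral m hm (it_contDiff1 m (k+2) hf) (fun s hs => itTp_nonneg m _ h0 hs) hs).trans ?_
    have h1 : ∫ t in (0:ℝ)..s, (Tp m)^[k+2] f t ≤ ∫ t in (0:ℝ)..s, (ε + 2 * δ * K) * 2 ^ k := by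
      refine intervalIntegral.integral_mono_on hs
        ((itTp_continuous m _ hf.continuous).intervalIntegrable _ _) (by simp) fun t ht => ?_
      exact ih ht.1 (ht.2.trans hs1)
    refine h1.trans ?_
    simp only [intervalIntegral.integral_const, smul_eq_mul, sub_zero]
    have h2 : 0 ≤ (ε + 2 * δ * K) * 2 ^ k := by positivity
    have h3 : s ≤ 2 := by linarith
    rw [pow_succ]
    nlinarith

end est

theorem exists_params (m : ℕ) (hm : 4 ≤ m) (c μ : ℝ) (hc : 0 < c) (hμ : 0 < μ) :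
    ∃ b D : ℝ, 1 ≤ b ∧ 0 ≤ D ∧ D * 2 ^ (m-3) ≤ b ^ 2 ∧ ∀ A : ℝ, Real.exp A ≤ μ * b →
      ∀ s, 0 ≤ s → c * (Tp m)^[m] (fun t => Real.exp (A + 1 - b ^ 2 * (t - 1) ^ 2)) s ≤
        1 + D * (s - 1) ^ 2 * s ^ (m-3) := by
  set K : ℝ := Real.exp 1 * μ * Real.sqrt Real.pi with hKdef
  have hK0 : 0 < K := by positivity
  set X : ℝ := 4 * c * 2 ^ (m-2) * K with hX
  have hX0 : 0 < X := by positivity
  set δ : ℝ := 1 / (X + 1) with hδdef
  have hδ0 : 0 < δ := by positivity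
  have hδ1 : δ ≤ 1 := by rw [hδdef, div_le_one (by positivity)]; linarith
  have hδX : δ * X ≤ 1 := by rw [hδdef, div_mul_eq_mul_div, div_le_one (by positivity)]; linarith
  set D : ℝ := c * K * ((1 + δ) / δ) ^ 2 with hD
  have hD0 : 0 ≤ D := by positivity
  set Z : ℝ := 2 * c * 2 ^ (m-2) * Real.exp 1 * μ / δ ^ 2 with hZ
  have hZ0 : 0 < Z := by positivity
  set b : ℝ := 1 + Z + D * 2 ^ (m-3) with hb
  have hDm : 0 ≤ D * 2 ^ (m-3) := by positivity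
  have hb1 : 1 ≤ b := by linarith
  have hb0 : 0 < b := by linarith
  have hbZ : Z ≤ b := by linarith
  refine ⟨b, D, hb1, hD0, by nlinarith, ?_⟩
  intro A hA s hs
  set f : ℝ → ℝ := fun t => Real.exp (A + 1 - b ^ 2 * (t - 1) ^ 2) with hf
  have hfc : ContDiff ℝ 1 f := by
    rw [hf]; fun_prop
  have hf0 : ∀ s, 0 ≤ s → 0 ≤ f s := fun s _ => (Real.exp_pos _).le
  have hfe : ∀ t, f t = Real.exp A * Real.exp 1 * Real.exp (-(b ^ 2) * (t - 1) ^ 2) := by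
    intro t
    rw [hf, ← Real.exp_add, ← Real.exp_add]
    ring_nf
  have hKf : ∀ s, 0 ≤ s → ∫ t in (0:ℝ)..s, f t ≤ K := by
    intro s hs
    simp_rw [hfe]
    rw [intervalIntegral.integral_const_mul]
    have h1 := gauss_part (B := b ^ 2) (by positivity) hs
    have h2 : Real.sqrt (Real.pi / b ^ 2) = Real.sqrt Real.pi / b := by
      rw [Real.sqrt_div Real.pi_pos.le, Real.sqrt_sq hb0.le]
    rw [h2] at h1
    calc Real.exp A * Real.exp 1 * ∫ t in (0:ℝ)..s, Real.exp (-(b ^ 2) * (t - 1) ^ 2)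
        ≤ (μ * b) * Real.exp 1 * (Real.sqrt Real.pi / b) := by
          gcongr
          exact intervalIntegral.integral_nonneg hs fun t _ => (Real.exp_pos _).le
      _ = K := by rw [hKdef]; field_simp
  set ε : ℝ := μ * b * Real.exp 1 * Real.exp (-(b ^ 2 * δ ^ 2)) with hε
  have hε0 : 0 ≤ ε := by positivity
  have hεf : ∀ s, 0 ≤ s → s ≤ 1 - δ → f s ≤ ε := by
    intro s hs hs1
    rw [hfe, hε]
    have h1 : Real.exp (-(b ^ 2) * (s - 1) ^ 2) ≤ Real.exp (-(b ^ 2 * δ ^ 2)) := by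
      apply Real.exp_le_exp.2
      have : δ ^ 2 ≤ (s - 1) ^ 2 := by nlinarith
      nlinarith [sq_nonneg b]
    gcongr
  have hεb : c * 2 ^ (m-2) * ε ≤ 1 / 2 := by
    have h1 : Real.exp (-(b ^ 2 * δ ^ 2)) ≤ 1 / (b ^ 2 * δ ^ 2) := by
      rw [Real.exp_neg, ← one_div]
      apply one_div_le_one_div_of_le (by positivity)
      have := Real.add_one_le_exp (b ^ 2 * δ ^ 2)
      linarith
    calc c * 2 ^ (m-2) * ε ≤ c * 2 ^ (m-2) * (μ * b * Real.exp 1 * (1 / (b ^ 2 * δ ^ 2))) := by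
          rw [hε]; gcongr
      _ = Z / (2 * b) := by rw [hZ]; field_simp
      _ ≤ 1 / 2 := by rw [div_le_div_iff₀ (by positivity) (by norm_num)]; linarith
  have hδb : c * 2 ^ (m-2) * (2 * δ * K) ≤ 1 / 2 := by
    have : c * 2 ^ (m-2) * (2 * δ * K) = δ * X / 2 := by rw [hX]; ring
    rw [this]; linarith
  rcases le_total s (1 + δ) with hs1 | hs1
  · have h1 := it_two_pow_le (m := m) (f := f) (by omega) hfc hf0 hK0.le hKf hδ0 hδ1 hε0 hεf (m-2) hs hs1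
    rw [show m - 2 + 2 = m by omega] at h1
    have h2 : 0 ≤ D * (s - 1) ^ 2 * s ^ (m-3) := by positivity
    have h3 := mul_le_mul_of_nonneg_left h1 hc.le
    have h4 : c * ((ε + 2 * δ * K) * 2 ^ (m-2)) = c * 2 ^ (m-2) * ε + c * 2 ^ (m-2) * (2 * δ * K) := by
      ring
    linarith
  · have h1 := it_pow_le (m := m) (f := f) (by omega) hfc hf0 hK0.le hKf (m-1) hs
    rw [show m - 1 + 1 = m by omega] at h1
    have h3 := mul_le_mul_of_nonneg_left h1 hc.le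
    have h4 : s ≤ (1 + δ) / δ * (s - 1) := by
      rw [div_mul_eq_mul_div, le_div_iff₀ hδ0]
      nlinarith
    have h5 : s ^ 2 ≤ ((1 + δ) / δ) ^ 2 * (s - 1) ^ 2 := by
      rw [← mul_pow]
      exact pow_le_pow_left₀ hs h4 2
    have h6 : s ^ (m-1) = s ^ 2 * s ^ (m-3) := by
      rw [← pow_add]; congr 1; omega
    have h7 : c * K * s ^ (m-1) ≤ D * (s - 1) ^ 2 * s ^ (m-3) := by
      rw [h6, hD]
      have h8 : 0 ≤ s ^ (m-3) := by positivity
      have h9 : 0 ≤ c * K := by positivity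
      calc c * K * (s ^ 2 * s ^ (m-3)) ≤ c * K * ((((1 + δ) / δ) ^ 2 * (s - 1) ^ 2) * s ^ (m-3)) := by
            gcongr
        _ = _ := by ring
    have h10 : c * (K * s ^ (m-1)) = c * K * s ^ (m-1) := by ring
    linarith
  
end Pool.Agent.X282.QV
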