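import Pool.Agent.X282.QV.Fix

set_option autoImplicit false

namespace Pool.Agent.X282.QV

open MeasureTheory Laplacian InnerProductSpace Filter Topology Set Polynomial

section general
variable {E : Type*} [NormedAddCommGroup E] [InnerProductSpace ℝ E] [FiniteDimensional ℝ E]

/-- The Laplacian computed from the second derivative. -/
lemma laplacian_eq_of_hasFDerivAt {f : E → ℝ} {f' : E → E →L[ℝ] ℝ}
    {f'' : E →L[ℝ] E →L[ℝ] ℝ} {x : E} {ι : Type*} [Fintype ι] (b : OrthonormalBasis ι ℝ E)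
    (h : ∀ᶠ y in nhds x, HasFDerivAt f (f' y) y) (h' : HasFDerivAt f' f'' x) :
    Δ f x = ∑ i, f'' (b i) (b i) := by
  rw [laplacian_eq_iteratedFDeriv_orthonormalBasis f b]
  refine Finset.sum_congr rfl fun i _ => ?_
  rw [iteratedFDeriv_two_apply]
  have h1 : fderiv ℝ f =ᶠ[nhds x] f' := by
    filter_upwards [h] with y hy using hy.fderiv
  rw [h1.fderiv_eq, h'.fderiv]
  simp

/-- Laplacian of a function of `‖x‖²`. -/
lemma laplacian_comp_normSq {U U' U'' : ℝ → ℝ} {x : E}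
    (h : ∀ᶠ s in nhds (‖x‖ ^ 2), HasDerivAt U (U' s) s)
    (h' : HasDerivAt U' (U'' (‖x‖ ^ 2)) (‖x‖ ^ 2)) :
    Δ (fun y : E => U (‖y‖ ^ 2)) x =
      4 * ‖x‖ ^ 2 * U'' (‖x‖ ^ 2) + 2 * (Module.finrank ℝ E : ℝ) * U' (‖x‖ ^ 2) := by
  have hn : ∀ y : E, HasFDerivAt (fun y : E => ‖y‖ ^ 2) (2 • (innerSL ℝ y)) y := fun y =>
    (hasStrictFDerivAt_norm_sq y).hasFDerivAt
  have hcont : Continuous (fun y : E => ‖y‖ ^ 2) := by fun_prop
  have h1 : ∀ᶠ y in nhds x, HasFDerivAt (fun y : E => U (‖y‖ ^ 2))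
      (U' (‖y‖ ^ 2) • (2 • (innerSL ℝ y))) y := by
    filter_upwards [hcont.continuousAt.eventually h] with y hy
    exact hy.comp_hasFDerivAt y (hn y)
  have h2 : HasFDerivAt (fun y : E => U' (‖y‖ ^ 2)) (U'' (‖x‖ ^ 2) • (2 • (innerSL ℝ x))) x :=
    h'.comp_hasFDerivAt x (hn x)
  have h3 : HasFDerivAt (fun y : E => (2 : ℕ) • (innerSL ℝ y)) (2 • (innerSL ℝ : E →L[ℝ] E →L[ℝ] ℝ)) x :=
    ((2 : ℕ) • (innerSL ℝ : E →L[ℝ] E →L[ℝ] ℝ)).hasFDerivAt
  have h4 := h2.smul h3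
  rw [laplacian_eq_of_hasFDerivAt (stdOrthonormalBasis ℝ E) h1 h4]
  have hsum := (stdOrthonormalBasis ℝ E).sum_sq_inner_left x
  have hterm : ∀ i, (U' (‖x‖ ^ 2) • (2 • (innerSL ℝ : E →L[ℝ] E →L[ℝ] ℝ)) +
      (U'' (‖x‖ ^ 2) • (2 • (innerSL ℝ x))).smulRight ((2 : ℕ) • (innerSL ℝ x)))
        ((stdOrthonormalBasis ℝ E) i) ((stdOrthonormalBasis ℝ E) i) =
      4 * U'' (‖x‖ ^ 2) * (inner ℝ x ((stdOrthonormalBasis ℝ E) i)) ^ 2 + 2 * U' (‖x‖ ^ 2) := by
    intro i
    have : inner ℝ ((stdOrthonormalBasis ℝ E) i) ((stdOrthonormalBasis ℝ E) i) = (1 : ℝ) := by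
      rw [real_inner_self_eq_norm_sq]; simp
    rw [add_apply, ContinuousLinearMap.smulRight_apply]
    simp [this, -inner_self_eq_norm_sq_to_K]
    ring
  rw [Finset.sum_congr rfl fun i _ => hterm i, Finset.sum_add_distrib, ← Finset.mul_sum, hsum]
  simp
  ring

end general

/-- smoothness -/
def Sm (f : ℝ → ℝ) : Prop := ∀ n : ℕ, ContDiff ℝ n f

lemma Sm.deriv {f : ℝ → ℝ} (hf : Sm f) : Sm (deriv f) := by
  intro n
  have h := hf (n+1)
  rw [Nat.cast_add, Nat.cast_one, contDiff_succ_iff_deriv] at h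
  exact h.2.2

lemma Sm.diff {f : ℝ → ℝ} (hf : Sm f) : Differentiable ℝ f := (hf 1).differentiable one_ne_zero

lemma Sm.Lr {f : ℝ → ℝ} (hf : Sm f) (m : ℕ) : Sm (Lr m f) := by
  intro n
  have h1 := hf.deriv n
  have h2 := hf.deriv.deriv n
  unfold QV.Lr
  fun_prop

lemma Sm.itLr {f : ℝ → ℝ} (hf : Sm f) (m k : ℕ) : Sm ((QV.Lr m)^[k] f) := by
  induction k with
  | zero => exact hf
  | succ k ih => rw [Function.iterate_succ_apply']; exact ih.Lr m

lemma Lr_lin (m : ℕ) (c : ℝ) {f g : ℝ → ℝ} (hf : Sm f) (hg : Sm g) :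
    Lr m (fun s => f s + c * g s) = fun s => Lr m f s + c * Lr m g s := by
  have h1 : deriv (fun s => f s + c * g s) = fun s => deriv f s + c * deriv g s := by
    ext s
    exact ((hf.diff s).hasDerivAt.add ((hg.diff s).hasDerivAt.const_mul c)).deriv
  have h2 : deriv (fun s => deriv f s + c * deriv g s) =
      fun s => deriv (deriv f) s + c * deriv (deriv g) s := by
    ext s
    exact ((hf.deriv.diff s).hasDerivAt.add ((hg.deriv.diff s).hasDerivAt.const_mul c)).deriv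
  ext s
  unfold QV.Lr
  rw [h1, h2]
  ring

lemma itLr_lin (m k : ℕ) (c : ℝ) {f g : ℝ → ℝ} (hf : Sm f) (hg : Sm g) :
    (Lr m)^[k] (fun s => f s + c * g s) = fun s => (Lr m)^[k] f s + c * (Lr m)^[k] g s := by
  induction k with
  | zero => rfl
  | succ k ih =>
    rw [Function.iterate_succ_apply', Function.iterate_succ_apply', Function.iterate_succ_apply', ih]
    exact Lr_lin m c (hf.itLr m k) (hg.itLr m k)

lemma Sm.itTp {g : ℝ → ℝ} (hg : Sm g) (m k : ℕ) : Sm ((Tp m)^[k] g) := fun n =>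
  (itTp_contDiff m k n (hg n)).of_le (by exact_mod_cast (by omega : n ≤ n + k))

lemma itLr_itTp (m : ℕ) (hm : 1 ≤ m) (k : ℕ) {g : ℝ → ℝ} (hg : Sm g) :
    (Lr m)^[k] ((Tp m)^[k] g) = g := by
  induction k with
  | zero => rfl
  | succ k ih =>
    rw [Function.iterate_succ_apply, Function.iterate_succ_apply' (Tp m)]
    have : Lr m (Tp m ((Tp m)^[k] g)) = (Tp m)^[k] g := funext fun s =>
      Lr_Tp m hm ((hg.itTp m k) 1) s
    rw [this, ih]

/-- the radial Laplacian on polynomials -/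
noncomputable def Lpoly (m : ℕ) (p : ℝ[X]) : ℝ[X] :=
  C 4 * (X * derivative (derivative p)) + C (4 * (m:ℝ)) * derivative p

lemma Lr_poly (m : ℕ) (p : ℝ[X]) : Lr m (fun s => p.eval s) = fun s => (Lpoly m p).eval s := by
  have h : ∀ q : ℝ[X], deriv (fun s => q.eval s) = fun s => (derivative q).eval s := fun q =>
    funext fun s => q.deriv
  ext s
  unfold QV.Lr Lpoly
  rw [h, h]
  simp
  ring

lemma Lpoly_coeff (m k : ℕ) (p : ℝ[X]) (hp : ∀ n, k + 1 ≤ n → p.coeff n = 0) :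
    ∀ n, k ≤ n → (Lpoly m p).coeff n = 0 := by
  intro n hn
  unfold Lpoly
  rw [coeff_add, coeff_C_mul, coeff_C_mul, coeff_derivative, hp (n+1) (by omega)]
  rcases n with _ | n
  · simp
  · rw [coeff_X_mul, coeff_derivative, coeff_derivative, hp (n+1+1) (by omega)]
    simp

lemma itLr_poly (m : ℕ) (k : ℕ) : ∀ (p : ℝ[X]), (∀ n, k ≤ n → p.coeff n = 0) →
    (Lr m)^[k] (fun s => p.eval s) = fun _ => 0 := by
  induction k with
  | zero =>
    intro p hp
    have : p = 0 := by ext n; simpa using hp n (Nat.zero_le _)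
    simp [this]
  | succ k ih =>
    intro p hp
    rw [Function.iterate_succ_apply, Lr_poly]
    exact ih _ (Lpoly_coeff m k p hp)

lemma Sm_poly (p : ℝ[X]) : Sm (fun s => p.eval s) := fun n => by
  simpa using p.contDiff_aeval (𝕜 := ℝ) n

/-- minus the Laplacian on `R^(2m)` -/
noncomputable def negLap (m : ℕ) (u : EuclideanSpace ℝ (Fin (2 * m)) → ℝ) :
    EuclideanSpace ℝ (Fin (2 * m)) → ℝ := fun x => -(Laplacian.laplacian u x)

lemma negLap_radial (m : ℕ) {W : ℝ → ℝ} (hW : Sm W) :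
    negLap m (fun x => W (‖x‖ ^ 2)) = fun x => -Lr m W (‖x‖ ^ 2) := by
  ext x
  unfold negLap
  rw [laplacian_comp_normSq (U := W) (U' := deriv W) (U'' := deriv (deriv W))
    (Eventually.of_forall fun s => (hW.diff s).hasDerivAt) (hW.deriv.diff _).hasDerivAt]
  unfold QV.Lr
  rw [finrank_euclideanSpace_fin]
  push_cast
  ring

lemma negLap_neg (m : ℕ) (u : EuclideanSpace ℝ (Fin (2 * m)) → ℝ) :
    negLap m (fun x => -u x) = fun x => -negLap m u x := by
  ext x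
  unfold negLap
  have := InnerProductSpace.laplacian_neg (f := u)
  have h := congrFun this x
  have e : (fun x => -u x) = -u := rfl
  rw [e, h]
  simp

lemma negLap_sq_radial (m : ℕ) {W : ℝ → ℝ} (hW : Sm W) :
    negLap m (negLap m (fun x => W (‖x‖ ^ 2))) = fun x => (Lr m)^[2] W (‖x‖ ^ 2) := by
  rw [negLap_radial m hW, negLap_neg m (fun x => Lr m W (‖x‖ ^ 2)), negLap_radial m (hW.Lr m)]
  ext x
  simp

lemma itNegLap_radial (m k : ℕ) {W : ℝ → ℝ} (hW : Sm W) :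
    (negLap m)^[2 * k] (fun x => W (‖x‖ ^ 2)) = fun x => (Lr m)^[2 * k] W (‖x‖ ^ 2) := by
  induction k with
  | zero => rfl
  | succ k ih =>
    rw [show 2 * (k + 1) = 2 * k + 1 + 1 by ring, Function.iterate_succ_apply',
      Function.iterate_succ_apply', ih, negLap_sq_radial m (hW.itLr m (2 * k))]
    ext x
    rw [← Function.iterate_add_apply, show 2 + 2 * k = 2 * k + 1 + 1 by ring]

end Pool.Agent.X282.QV
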