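import Pool.Agent.X282.QV.Est
import Pool.Agent.X282.QV.Lap

set_option autoImplicit false

namespace Pool.Agent.X282.QV

open MeasureTheory Filter Topology Set Polynomial

/-- the set of volumes of radial solutions -/
def volumes (m : ℕ) : Set ℝ :=
  {V | ∃ u : EuclideanSpace ℝ (Fin (2 * m)) → ℝ, (∀ n : ℕ, ContDiff ℝ n u) ∧
    (∀ x y, ‖x‖ = ‖y‖ → u x = u y) ∧
    (∀ x, (negLap m)^[m] u x = ((2 * m - 1).factorial : ℝ) * Real.exp (2 * m * u x)) ∧
    Integrable (fun x => Real.exp (2 * m * u x)) ∧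
    ∫ x, Real.exp (2 * m * u x) = V}

section mass

variable (E : Type*) [NormedAddCommGroup E] [InnerProductSpace ℝ E] [FiniteDimensional ℝ E]
  [MeasurableSpace E] [BorelSpace E]

lemma integrable_gauss : Integrable (fun x : E => Real.exp (-‖x‖ ^ 2)) := by
  have h := (GaussianFourier.integrable_cexp_neg_mul_sq_norm_add (V := E) (b := 1) (by simp) 0 0).norm
  refine h.congr (Eventually.of_forall fun x => ?_)
  simp only
  rw [Complex.norm_exp]
  congr 1
  simp
  norm_cast

lemma integrable_bump {b : ℝ} (hb : 1 ≤ b) (C : ℝ) :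
    Integrable (fun x : E => Real.exp (C - b ^ 2 * (‖x‖ ^ 2 - 1) ^ 2)) := by
  have h := (integrable_gauss E).const_mul (Real.exp (C + 5/4))
  refine h.mono' (by fun_prop) (Eventually.of_forall fun x => ?_)
  rw [Real.norm_of_nonneg (Real.exp_pos _).le, ← Real.exp_add]
  apply Real.exp_le_exp.2
  have h1 : 1 ≤ b ^ 2 := by nlinarith
  have h2 : (‖x‖ ^ 2 - 1) ^ 2 ≤ b ^ 2 * (‖x‖ ^ 2 - 1) ^ 2 := by
    nlinarith [sq_nonneg (‖x‖ ^ 2 - 1)]
  nlinarith [sq_nonneg (‖x‖ ^ 2 - 3/2)]

/-- volume of a thin shell -/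
lemma shell_volume {m : ℕ} (hm : 1 ≤ m) (hE : Module.finrank ℝ E = 2 * m) {b : ℝ} (hb : 1 ≤ b) :
    (volume (Metric.ball (0 : E) 1)).toReal / b ≤
      (volume {x : E | 1 ≤ ‖x‖ ^ 2 ∧ ‖x‖ ^ 2 ≤ 1 + 1 / b}).toReal := by
  have hb0 : 0 < b := by linarith
  set r : ℝ := Real.sqrt (1 + 1 / b) with hr
  have hr0 : 0 ≤ r := Real.sqrt_nonneg _
  have hr2 : r ^ 2 = 1 + 1 / b := Real.sq_sqrt (by positivity)
  have hset : {x : E | 1 ≤ ‖x‖ ^ 2 ∧ ‖x‖ ^ 2 ≤ 1 + 1 / b} =
      Metric.closedBall 0 r \ Metric.ball 0 1 := by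
    ext x
    simp only [mem_ofPred_eq, Set.mem_sdiff, Metric.mem_closedBall, Metric.mem_ball, dist_zero_right, not_lt]
    constructor
    · rintro ⟨h1, h2⟩
      exact ⟨by rw [← hr2] at h2; exact (pow_le_pow_iff_left₀ (norm_nonneg _) hr0 two_ne_zero).1 h2,
        by nlinarith [norm_nonneg x]⟩
    · rintro ⟨h1, h2⟩
      exact ⟨by nlinarith, by rw [← hr2]; exact pow_le_pow_left₀ (norm_nonneg _) h1 2⟩
  have hb1 : 1 ≤ r := by
    rw [hr, Real.one_le_sqrt]
    have : 0 < 1 / b := by positivity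
    linarith
  have hsub : Metric.ball (0:E) 1 ⊆ Metric.closedBall 0 r :=
    (Metric.ball_subset_ball hb1).trans Metric.ball_subset_closedBall
  rw [hset, measure_sdiff hsub Metric.isOpen_ball.measurableSet.nullMeasurableSet
    measure_ball_lt_top.ne, ENNReal.toReal_sub_of_le (measure_mono hsub) measure_closedBall_lt_top.ne,
    Measure.addHaar_closedBall _ _ hr0, hE, ENNReal.toReal_mul, ENNReal.toReal_ofReal (by positivity)]
  set ω : ℝ := (volume (Metric.ball (0 : E) 1)).toReal with hω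
  have hω0 : 0 ≤ ω := ENNReal.toReal_nonneg
  have h1 : r ^ (2 * m) = (1 + 1 / b) ^ m := by rw [pow_mul, hr2]
  have h2 : 1 + (m:ℝ) * (1 / b) ≤ (1 + 1 / b) ^ m :=
    one_add_mul_le_pow (by have : 0 < 1 / b := by positivity
                           linarith) m
  have h3 : (1:ℝ) ≤ m := by exact_mod_cast hm
  have h4 : 0 < 1 / b := by positivity
  have h5 : 1 + 1 / b ≤ r ^ (2 * m) := by rw [h1]; nlinarith
  have h6 : ω / b = ω * (1 / b) := by ring
  rw [h6]
  nlinarith

end mass

theorem volumes_eq (m : ℕ) (hm : 4 ≤ m) (hme : Even m) : volumes m = Ioi 0 := by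
  have hm1 : 1 ≤ m := by omega
  apply subset_antisymm
  · rintro V ⟨u, -, -, -, hi, rfl⟩
    exact integral_exp_pos hi
  intro V hV
  rw [mem_Ioi] at hV
  set E := EuclideanSpace ℝ (Fin (2 * m)) with hE
  have hfin : Module.finrank ℝ E = 2 * m := finrank_euclideanSpace_fin
  set ω : ℝ := (volume (Metric.ball (0 : E) 1)).toReal with hω
  have hω0 : 0 < ω := ENNReal.toReal_pos (Metric.measure_ball_pos _ _ one_pos).ne'
    measure_ball_lt_top.ne
  set c : ℝ := 2 * m * ((2 * m - 1).factorial : ℝ) with hc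
  have hmR : (0:ℝ) < m := by exact_mod_cast (by omega : 0 < m)
  have hc0 : 0 < c := by positivity
  set μ : ℝ := V * Real.exp 2 / ω with hμ
  have hμ0 : 0 < μ := by positivity
  obtain ⟨b, D, hb1, hD0, hDb, hpar⟩ := exists_params m hm c μ hc0 hμ0
  have hb0 : 0 < b := by linarith
  -- the polynomial
  set p : ℝ[X] := -(C (b ^ 2) * (X - C 1) ^ 2) - C D * (X - C 1) ^ 2 * X ^ (m-3) with hp
  have hpe : ∀ s, p.eval s = -(b ^ 2 * (s - 1) ^ 2) - D * (s - 1) ^ 2 * s ^ (m-3) := by
    intro s; simp [hp]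
  have hpdeg : ∀ A : ℝ, ∀ n, m ≤ n → (C A + p).coeff n = 0 := by
    intro A n hn
    apply coeff_eq_zero_of_natDegree_lt
    have h1 : natDegree ((X - C 1 : ℝ[X]) ^ 2) ≤ 2 := by
      refine (natDegree_pow_le).trans ?_
      rw [natDegree_X_sub_C]
    have h2 : natDegree (C D * (X - C 1 : ℝ[X]) ^ 2 * X ^ (m-3)) ≤ 2 + (m - 3) := by
      refine natDegree_mul_le.trans ?_
      rw [natDegree_X_pow]
      exact Nat.add_le_add_right ((natDegree_C_mul_le _ _).trans h1) _
    have h3 : natDegree (-(C (b ^ 2) * (X - C 1 : ℝ[X]) ^ 2)) ≤ 2 := by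
      rw [natDegree_neg]
      exact (natDegree_C_mul_le _ _).trans h1
    have h4 : natDegree (C A + p) ≤ m - 1 := by
      refine (natDegree_add_le _ _).trans (max_le (by simp) ?_)
      refine (natDegree_sub_le _ _).trans (max_le (h3.trans (by omega)) (h2.trans (by omega)))
    omega
  set A0 : ℝ := Real.log (μ * b) with hA0
  have hA0e : Real.exp A0 = μ * b := Real.exp_log (by positivity)
  have hQ : Continuous fun s => p.eval s := p.continuous
  obtain ⟨w, hwc, hweq, hwA, hwU⟩ := exists_family m hm1 c hc0.le (A0 + 1) (fun s => p.eval s) hQ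
  have hwS : ∀ A, Sm (w A) := fun A =>
    smooth_of_eq m hm1 c (A0 + 1) (P := fun s => A + p.eval s)
      (fun n => contDiff_const.add (Sm_poly p n)) (hwc A) (hweq A)
  have hpS : Sm (psi (A0 + 1)) := fun n => psi_contDiff _ n
  have hgS : ∀ A, Sm (fun t => psi (A0 + 1) (w A t)) := fun A n => (hpS n).comp (hwS A n)
  -- upper bound
  have hup : ∀ A, A ≤ A0 → ∀ s, 0 ≤ s → w A s ≤ A + 1 - b ^ 2 * (s - 1) ^ 2 := by
    intro A hA
    have hAe : Real.exp A ≤ μ * b := by rw [← hA0e]; exact Real.exp_le_exp.2 hA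
    refine hwU A (fun s => A + 1 - b ^ 2 * (s - 1) ^ 2) (by fun_prop) ?_ ?_
    · intro s hs
      have : 0 ≤ D * (s - 1) ^ 2 * s ^ (m-3) := by positivity
      simp only [hpe]
      linarith
    · intro s hs
      have := hpar A hAe s hs
      simp only [hpe]
      linarith
  have hlow : ∀ A, ∀ s, 0 ≤ s → A + p.eval s ≤ w A s := by
    intro A s hs
    rw [hweq]
    have := itTp_nonneg m m (f := fun t => psi (A0 + 1) (w A t)) (fun t _ => psi_nonneg _ _) hs
    have := mul_nonneg hc0.le this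
    linarith
  -- the equation
  have hpde : ∀ A, A ≤ A0 → ∀ s, 0 ≤ s → (Lr m)^[m] (w A) s = c * Real.exp (w A s) := by
    intro A hA s hs
    have h1 : w A = fun s => (C A + p).eval s + c * (Tp m)^[m] (fun t => psi (A0 + 1) (w A t)) s := by
      ext s; rw [hweq]; simp
    have h2 : (Lr m)^[m] (w A) = fun s => 0 + c * psi (A0 + 1) (w A s) := by
      conv_lhs => rw [h1]
      rw [itLr_lin m m c (Sm_poly _) ((hgS A).itTp m m), itLr_poly m m _ (hpdeg A),
        itLr_itTp m hm1 m (hgS A)]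
    rw [h2]
    have h3 : w A s ≤ A0 + 1 := by
      have := hup A hA s hs
      have : 0 ≤ b ^ 2 * (s - 1) ^ 2 := by positivity
      linarith
    simp only
    rw [psi_eq h3, zero_add]
  -- the solutions
  have hsol : ∀ A, A ≤ A0 → ∀ x : E, (negLap m)^[m] (fun x => w A (‖x‖ ^ 2) / (2 * m)) x =
      ((2 * m - 1).factorial : ℝ) * Real.exp (2 * m * (w A (‖x‖ ^ 2) / (2 * m))) := by
    intro A hA x
    obtain ⟨k, hk⟩ := hme
    have hS : Sm (fun s => w A s / (2 * m)) := fun n => (hwS A n).div_const _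
    have h1 := congrFun (itNegLap_radial m k hS) x
    rw [show 2 * k = m by omega] at h1
    rw [h1]
    have h0S : Sm (fun _ : ℝ => (0:ℝ)) := fun n => contDiff_const
    have h2 : (fun s => w A s / (2 * m)) = fun s => (fun _ : ℝ => (0:ℝ)) s + (1 / (2 * m)) * w A s := by
      ext s; simp; ring
    rw [h2, itLr_lin m m _ h0S (hwS A)]
    have h3 : ∀ k, (Lr m)^[k] (fun _ : ℝ => (0:ℝ)) = fun _ => 0 := by
      intro k
      induction k with
      | zero => rfl
      | succ k ih =>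
        rw [Function.iterate_succ_apply', ih]
        ext s
        unfold Lr
        simp
    rw [h3]
    simp only
    rw [hpde A hA _ (by positivity), hc]
    have h4 : 2 * (m:ℝ) * (w A (‖x‖ ^ 2) / (2 * m)) = w A (‖x‖ ^ 2) := by field_simp
    rw [h4]
    field_simp
    ring
  -- the mass
  have hFm : ∀ A, AEStronglyMeasurable (fun x : E => Real.exp (w A (‖x‖ ^ 2))) volume := by
    intro A
    have := hwc A
    exact (by fun_prop : Continuous fun x : E => Real.exp (w A (‖x‖ ^ 2))).aestronglyMeasurable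
  have hFb : ∀ A, A ≤ A0 → ∀ x : E, ‖Real.exp (w A (‖x‖ ^ 2))‖ ≤
      Real.exp (A + 1 - b ^ 2 * (‖x‖ ^ 2 - 1) ^ 2) := by
    intro A hA x
    rw [Real.norm_of_nonneg (Real.exp_pos _).le]
    exact Real.exp_le_exp.2 (hup A hA _ (by positivity))
  have hFi : ∀ A, A ≤ A0 → Integrable (fun x : E => Real.exp (w A (‖x‖ ^ 2))) := fun A hA =>
    (integrable_bump E hb1 (A + 1)).mono' (hFm A) (Eventually.of_forall (hFb A hA))
  set G : ℝ → ℝ := fun A => ∫ x : E, Real.exp (w A (‖x‖ ^ 2)) with hG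
  have hGc : ContinuousOn G (Iic A0) := by
    refine continuousOn_of_dominated (bound := fun x => Real.exp (A0 + 1 - b ^ 2 * (‖x‖ ^ 2 - 1) ^ 2))
      (fun A _ => hFm A) (fun A hA => Eventually.of_forall fun x => ?_)
      (integrable_bump E hb1 (A0 + 1)) (Eventually.of_forall fun x => ?_)
    · refine (hFb A hA x).trans (Real.exp_le_exp.2 ?_)
      have : A ≤ A0 := hA
      linarith
    · exact (Real.continuous_exp.comp (hwA _)).continuousOn
  -- lower bound at A0
  have hGA0 : V ≤ G A0 := by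
    set S : Set E := {x : E | 1 ≤ ‖x‖ ^ 2 ∧ ‖x‖ ^ 2 ≤ 1 + 1 / b} with hS
    have hSm : MeasurableSet S := by
      apply IsClosed.measurableSet
      exact (isClosed_le continuous_const (by fun_prop : Continuous fun x : E => ‖x‖ ^ 2)).inter
        (isClosed_le (by fun_prop : Continuous fun x : E => ‖x‖ ^ 2) continuous_const)
    have hSfin : volume S ≠ ⊤ := by
      refine ((measure_mono (t := Metric.closedBall (0:E) 2) ?_).trans_lt
        measure_closedBall_lt_top).ne
      rintro x ⟨-, hx⟩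
      rw [mem_closedBall_zero_iff]
      have : 1 / b ≤ 1 := by rw [div_le_one hb0]; exact hb1
      nlinarith [norm_nonneg x]
    have h1 : ∫ x in S, Real.exp (A0 - 2) ≤ ∫ x in S, Real.exp (w A0 (‖x‖ ^ 2)) := by
      refine setIntegral_mono_on (integrableOn_const hSfin) (hFi A0 le_rfl).integrableOn hSm ?_
      intro x hx
      apply Real.exp_le_exp.2
      refine le_trans ?_ (hlow A0 _ (by positivity))
      rw [hpe]
      set s : ℝ := ‖x‖ ^ 2 with hs
      have hx1 : 0 ≤ s - 1 := by linarith [hx.1]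
      have hx2 : s - 1 ≤ 1 / b := by linarith [hx.2]
      have h3 : (s - 1) ^ 2 ≤ (1 / b) ^ 2 := pow_le_pow_left₀ hx1 hx2 2
      have h4 : b ^ 2 * (s - 1) ^ 2 ≤ 1 := by
        calc b ^ 2 * (s - 1) ^ 2 ≤ b ^ 2 * (1 / b) ^ 2 := by gcongr
          _ = 1 := by field_simp
      have h5 : s ≤ 2 := by
        have : 1 / b ≤ 1 := by rw [div_le_one hb0]; exact hb1
        linarith
      have h6 : D * (s - 1) ^ 2 * s ^ (m-3) ≤ 1 := by
        calc D * (s - 1) ^ 2 * s ^ (m-3) ≤ D * (1 / b) ^ 2 * 2 ^ (m-3) := by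
              have : 0 ≤ s := by linarith
              gcongr
          _ = (D * 2 ^ (m-3)) * (1 / b) ^ 2 := by ring
          _ ≤ b ^ 2 * (1 / b) ^ 2 := by gcongr
          _ = 1 := by field_simp
      linarith
    have h2 : ∫ x in S, Real.exp (w A0 (‖x‖ ^ 2)) ≤ G A0 :=
      setIntegral_le_integral (hFi A0 le_rfl) (Eventually.of_forall fun x => (Real.exp_pos _).le)
    have h3 := shell_volume E hm1 hfin hb1
    rw [setIntegral_const, smul_eq_mul] at h1
    have h4 : V ≤ volume.real S * Real.exp (A0 - 2) := by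
      have h5 : Real.exp (A0 - 2) = μ * b / Real.exp 2 := by rw [Real.exp_sub, hA0e]
      rw [h5]
      have h6 : ω / b ≤ volume.real S := h3
      calc V = (ω / b) * (μ * b / Real.exp 2) := by rw [hμ]; field_simp
        _ ≤ volume.real S * (μ * b / Real.exp 2) := by gcongr
    linarith
  -- upper bound for very negative A
  set C0 : ℝ := ∫ x : E, Real.exp (1 - b ^ 2 * (‖x‖ ^ 2 - 1) ^ 2) with hC0
  have hC00 : 0 ≤ C0 := integral_nonneg fun x => (Real.exp_pos _).le
  set A1 : ℝ := min A0 (Real.log (V / (C0 + 1))) with hA1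
  have hGA1 : G A1 ≤ V := by
    have h1 : G A1 ≤ ∫ x : E, Real.exp A1 * Real.exp (1 - b ^ 2 * (‖x‖ ^ 2 - 1) ^ 2) := by
      refine integral_mono (hFi A1 (min_le_left _ _)) ((integrable_bump E hb1 1).const_mul _)
        fun x => ?_
      simp only
      rw [← Real.exp_add]
      apply Real.exp_le_exp.2
      have := hup A1 (min_le_left _ _) (‖x‖ ^ 2) (by positivity)
      linarith
    rw [integral_const_mul] at h1
    have h2 : Real.exp A1 ≤ V / (C0 + 1) := by
      calc Real.exp A1 ≤ Real.exp (Real.log (V / (C0 + 1))) := Real.exp_le_exp.2 (min_le_right _ _)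
        _ = _ := Real.exp_log (by positivity)
    calc G A1 ≤ Real.exp A1 * C0 := h1
      _ ≤ V / (C0 + 1) * (C0 + 1) := by gcongr; linarith
      _ = V := by field_simp
  obtain ⟨A, hA, hAV⟩ := intermediate_value_Icc (min_le_left A0 (Real.log (V / (C0 + 1))))
    (hGc.mono fun x hx => hx.2) ⟨hGA1, hGA0⟩
  have hAA0 : A ≤ A0 := hA.2
  have hexp : ∀ x : E, Real.exp (2 * m * (w A (‖x‖ ^ 2) / (2 * m))) = Real.exp (w A (‖x‖ ^ 2)) := by
    intro x; congr 1; field_simp
  refine ⟨fun x => w A (‖x‖ ^ 2) / (2 * m), ?_, ?_, hsol A hAA0, ?_, ?_⟩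
  · intro n
    have h1 : ContDiff ℝ n fun x : E => ‖x‖ ^ 2 := contDiff_norm_sq ℝ
    exact ((hwS A n).comp h1).div_const _
  · intro x y hxy
    simp only [hxy]
  · simp only [hexp]
    exact hFi A hAA0
  · simp only [hexp]
    exact hAV

end Pool.Agent.X282.QV
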