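import Pool.Agent.X282.QV.Op

set_option autoImplicit false

namespace Pool.Agent.X282.QV

open MeasureTheory intervalIntegral Set Filter Topology
open scoped BoundedContinuousFunction

/-! iterates of `Tp` -/

lemma itTp_continuous (m k : ℕ) {f : ℝ → ℝ} (hf : Continuous f) : Continuous ((Tp m)^[k] f) := by
  induction k with
  | zero => simpa using hf
  | succ k ih => rw [Function.iterate_succ_apply']; exact continuous_Tp m ih

lemma itTp_contDiff (m k n : ℕ) {f : ℝ → ℝ} (hf : ContDiff ℝ n f) :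
    ContDiff ℝ (n + k : ℕ) ((Tp m)^[k] f) := by
  induction k with
  | zero => simpa using hf
  | succ k ih =>
    rw [Function.iterate_succ_apply']
    have := contDiff_Tp m (n+k) ih
    exact_mod_cast this

lemma itTp_sub (m k : ℕ) {f g : ℝ → ℝ} (hf : Continuous f) (hg : Continuous g) :
    (Tp m)^[k] (fun t => f t - g t) = fun s => (Tp m)^[k] f s - (Tp m)^[k] g s := by
  induction k with
  | zero => rfl
  | succ k ih =>
    rw [Function.iterate_succ_apply', Function.iterate_succ_apply', Function.iterate_succ_apply', ih]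
    ext s
    exact Tp_sub m (itTp_continuous m k hf) (itTp_continuous m k hg) s

lemma itTp_const_mul (m k : ℕ) (c : ℝ) (f : ℝ → ℝ) :
    (Tp m)^[k] (fun t => c * f t) = fun s => c * (Tp m)^[k] f s := by
  induction k with
  | zero => rfl
  | succ k ih =>
    rw [Function.iterate_succ_apply', Function.iterate_succ_apply', ih]
    ext s
    exact Tp_const_mul m c _ s

lemma itTp_nonneg (m k : ℕ) {f : ℝ → ℝ} (hf : ∀ s, 0 ≤ s → 0 ≤ f s) {s : ℝ} (hs : 0 ≤ s) :
    0 ≤ (Tp m)^[k] f s := by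
  induction k generalizing s with
  | zero => exact hf s hs
  | succ k ih => rw [Function.iterate_succ_apply']; exact Tp_nonneg m (fun s hs => ih hs) hs

lemma itTp_mono (m k : ℕ) {f g : ℝ → ℝ} (hf : Continuous f) (hg : Continuous g)
    (h : ∀ s, 0 ≤ s → f s ≤ g s) {s : ℝ} (hs : 0 ≤ s) : (Tp m)^[k] f s ≤ (Tp m)^[k] g s := by
  induction k generalizing s with
  | zero => exact h s hs
  | succ k ih =>
    rw [Function.iterate_succ_apply', Function.iterate_succ_apply']
    exact Tp_mono m (itTp_continuous m k hf) (itTp_continuous m k hg) (fun s hs => ih hs) hs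

lemma itTp_bound (m k : ℕ) {f : ℝ → ℝ} (hf : Continuous f) {C κ : ℝ} (hC : 0 ≤ C) (hκ : 0 < κ)
    (h : ∀ s, |f s| ≤ C * Real.exp (κ * |s|)) (s : ℝ) :
    |(Tp m)^[k] f s| ≤ C * (1 / (4 * κ)) ^ k * Real.exp (κ * |s|) := by
  induction k generalizing s with
  | zero => simpa using h s
  | succ k ih =>
    rw [Function.iterate_succ_apply']
    refine (Tp_bound m (itTp_continuous m k hf) (by positivity) hκ ih s).trans (le_of_eq ?_)
    ring

/-! the cutoff exponential -/

noncomputable def psi (M : ℝ) (t : ℝ) : ℝ := Real.exp t * Real.smoothTransition (M + 1 - t)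

lemma psi_eq {M t : ℝ} (h : t ≤ M) : psi M t = Real.exp t := by
  rw [psi, Real.smoothTransition.one_of_one_le (by linarith), mul_one]

lemma psi_nonneg (M t : ℝ) : 0 ≤ psi M t :=
  mul_nonneg (Real.exp_pos _).le (Real.smoothTransition.nonneg _)

lemma psi_le_exp (M t : ℝ) : psi M t ≤ Real.exp t := by
  unfold psi
  have := Real.smoothTransition.le_one (M + 1 - t)
  nlinarith [Real.exp_pos t]

lemma psi_zero {M t : ℝ} (h : M + 1 ≤ t) : psi M t = 0 := by
  rw [psi, Real.smoothTransition.zero_of_nonpos (by linarith), mul_zero]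

lemma psi_le (M t : ℝ) : psi M t ≤ Real.exp (M + 1) := by
  rcases le_total t (M+1) with h | h
  · exact (psi_le_exp M t).trans (Real.exp_le_exp.2 h)
  · rw [psi_zero h]; exact (Real.exp_pos _).le

lemma psi_contDiff (M : ℝ) (n : ℕ) : ContDiff ℝ n (psi M) := by
  unfold psi
  refine Real.contDiff_exp.mul ?_
  exact Real.smoothTransition.contDiff.comp (contDiff_const.sub contDiff_id)

lemma psi_continuous (M : ℝ) : Continuous (psi M) := (psi_contDiff M 0).continuous

lemma psi_lip (M : ℝ) : ∃ L : ℝ, 1 ≤ L ∧ ∀ a b, |psi M a - psi M b| ≤ L * |a - b| := by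
  have hd : Differentiable ℝ (psi M) := (psi_contDiff M 1).differentiable one_ne_zero
  obtain ⟨C, hC⟩ := (isCompact_Icc (a := M) (b := M+1)).exists_bound_of_continuousOn
    ((psi_contDiff M 1).continuous_deriv le_rfl).continuousOn
  have hb : ∀ t, ‖deriv (psi M) t‖ ≤ |C| + Real.exp M + 1 := by
    intro t
    rcases lt_or_ge t M with h | h
    · have h1 : psi M =ᶠ[𝓝 t] Real.exp := by
        filter_upwards [Iio_mem_nhds h] with x hx using psi_eq (le_of_lt hx)
      rw [h1.deriv_eq, Real.deriv_exp, Real.norm_of_nonneg (Real.exp_pos _).le]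
      have := Real.exp_le_exp.2 h.le
      have := abs_nonneg C
      linarith
    · rcases le_or_gt t (M+1) with h2 | h2
      · have := hC t ⟨h, h2⟩
        have := le_abs_self C
        have := Real.exp_pos M
        linarith
      · have h1 : psi M =ᶠ[𝓝 t] fun _ => (0:ℝ) := by
          filter_upwards [Ioi_mem_nhds h2] with x hx using psi_zero (le_of_lt hx)
        rw [h1.deriv_eq, deriv_const, norm_zero]
        have := abs_nonneg C
        have := Real.exp_pos M
        linarith
  refine ⟨|C| + Real.exp M + 1, ?_, fun a b => ?_⟩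
  · have := abs_nonneg C
    have := Real.exp_pos M
    linarith
  · have := convex_univ.norm_image_sub_le_of_norm_deriv_le (f := psi M) (s := univ)
      (fun x _ => hd x) (fun x _ => hb x) (mem_univ b) (mem_univ a)
    simpa using this

/-! the fixed point -/

section fix

variable (m : ℕ) (c : ℝ) (M : ℝ) (κ : ℝ)

lemma inner_cont {P : ℝ → ℝ} (hP : Continuous P) (y : ℝ →ᵇ ℝ) :
    Continuous fun t => psi M (P t + Real.exp (κ * |t|) * y t) := by
  have := psi_continuous M
  have := y.continuous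
  fun_prop

lemma Phi_cont {P : ℝ → ℝ} (hP : Continuous P) (y : ℝ →ᵇ ℝ) :
    Continuous fun s => Real.exp (-(κ * |s|)) *
      (c * (Tp m)^[m] (fun t => psi M (P t + Real.exp (κ * |t|) * y t)) s) := by
  have := itTp_continuous m m (inner_cont M κ hP y)
  fun_prop

lemma Phi_bound (hκ : 1 ≤ κ) {P : ℝ → ℝ} (hP : Continuous P) (y : ℝ →ᵇ ℝ) (s : ℝ) :
    ‖Real.exp (-(κ * |s|)) * (c * (Tp m)^[m] (fun t => psi M (P t + Real.exp (κ * |t|) * y t)) s)‖
      ≤ |c| * (Real.exp (M+1) * (1 / (4 * κ)) ^ m) := by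
  have h1 := itTp_bound m m (inner_cont M κ hP y) (C := Real.exp (M+1)) (κ := κ) (Real.exp_pos _).le
    (by linarith) (fun t => by
      rw [abs_of_nonneg (psi_nonneg _ _)]
      refine (psi_le _ _).trans ?_
      have : 1 ≤ Real.exp (κ * |t|) := Real.one_le_exp (by positivity)
      nlinarith [Real.exp_pos (M+1)]) s
  rw [norm_mul, norm_mul, Real.norm_of_nonneg (Real.exp_pos _).le, Real.norm_eq_abs, Real.norm_eq_abs]
  have h2 : Real.exp (-(κ * |s|)) * Real.exp (κ * |s|) = 1 := by rw [← Real.exp_add]; simp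
  calc _ ≤ Real.exp (-(κ * |s|)) * (|c| * (Real.exp (M+1) * (1 / (4 * κ)) ^ m * Real.exp (κ * |s|))) := by
        gcongr
    _ = |c| * (Real.exp (M+1) * (1 / (4 * κ)) ^ m) * (Real.exp (-(κ * |s|)) * Real.exp (κ * |s|)) := by ring
    _ = _ := by rw [h2, mul_one]

noncomputable def Phi (hκ : 1 ≤ κ) (P : ℝ → ℝ) (hP : Continuous P) (y : ℝ →ᵇ ℝ) : ℝ →ᵇ ℝ :=
  BoundedContinuousFunction.ofNormedAddCommGroup _ (Phi_cont m c M κ hP y) _
    (Phi_bound m c M κ hκ hP y)

lemma Phi_apply (hκ : 1 ≤ κ) (P : ℝ → ℝ) (hP : Continuous P) (y : ℝ →ᵇ ℝ) (s : ℝ) :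
    Phi m c M κ hκ P hP y s = Real.exp (-(κ * |s|)) *
      (c * (Tp m)^[m] (fun t => psi M (P t + Real.exp (κ * |t|) * y t)) s) := rfl

lemma Phi_diff (hm : 1 ≤ m) (hc : 0 ≤ c) (hκ : 1 ≤ κ) {L : ℝ} (hL : 1 ≤ L)
    (hLip : ∀ a b, |psi M a - psi M b| ≤ L * |a - b|) (hκL : c * L ≤ κ)
    {P P' : ℝ → ℝ} (hP : Continuous P) (hP' : Continuous P') {D : ℝ} (hD : 0 ≤ D)
    (hPP : ∀ s, |P s - P' s| ≤ D) (y y' : ℝ →ᵇ ℝ) :
    dist (Phi m c M κ hκ P hP y) (Phi m c M κ hκ P' hP' y') ≤ (1/4) * (D + dist y y') := by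
  rw [BoundedContinuousFunction.dist_le (by positivity)]
  intro s
  rw [Real.dist_eq, Phi_apply, Phi_apply, ← mul_sub, ← mul_sub]
  have h0 := congrFun (itTp_sub m m (inner_cont M κ hP y) (inner_cont M κ hP' y')) s
  rw [← h0]
  have hκ0 : 0 < κ := by linarith
  have h1 := itTp_bound m m ((inner_cont M κ hP y).sub (inner_cont M κ hP' y'))
    (C := L * (D + dist y y')) (κ := κ) (by positivity) hκ0 (fun t => by
      refine (hLip _ _).trans ?_
      rw [mul_assoc]
      refine mul_le_mul_of_nonneg_left ?_ (by linarith)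
      have e1 : 1 ≤ Real.exp (κ * |t|) := Real.one_le_exp (by positivity)
      have e2 : |y t - y' t| ≤ dist y y' := by
        rw [← Real.dist_eq]; exact BoundedContinuousFunction.dist_coe_le_dist t
      have e3 : P t + Real.exp (κ * |t|) * y t - (P' t + Real.exp (κ * |t|) * y' t) =
        (P t - P' t) + Real.exp (κ * |t|) * (y t - y' t) := by ring
      rw [e3]
      refine (abs_add_le _ _).trans ?_
      rw [abs_mul, abs_of_pos (Real.exp_pos _)]
      have e4 := hPP t
      nlinarith [abs_nonneg (y t - y' t)]) s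
  rw [abs_mul, abs_mul, abs_of_pos (Real.exp_pos _), abs_of_nonneg hc]
  have h2 : Real.exp (-(κ * |s|)) * Real.exp (κ * |s|) = 1 := by rw [← Real.exp_add]; simp
  have h3 : (1 / (4 * κ)) ^ m ≤ 1 / (4 * κ) := by
    have : (1 / (4 * κ)) ^ m ≤ (1 / (4 * κ)) ^ 1 := by
      apply pow_le_pow_of_le_one (by positivity) _ hm
      rw [div_le_one (by positivity)]; linarith
    simpa using this
  calc _ ≤ Real.exp (-(κ * |s|)) * (c * (L * (D + dist y y') * (1 / (4 * κ)) ^ m *
          Real.exp (κ * |s|))) := by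
        gcongr
        exact h1
    _ = (c * L) * (D + dist y y') * (1 / (4 * κ)) ^ m *
          (Real.exp (-(κ * |s|)) * Real.exp (κ * |s|)) := by ring
    _ = (c * L) * (D + dist y y') * (1 / (4 * κ)) ^ m := by rw [h2, mul_one]
    _ ≤ κ * (D + dist y y') * (1 / (4 * κ)) := by
        have : 0 ≤ D + dist y y' := by positivity
        gcongr
    _ = _ := by field_simp

end fix

theorem exists_family (m : ℕ) (hm : 1 ≤ m) (c : ℝ) (hc : 0 ≤ c) (M : ℝ) (Q : ℝ → ℝ)
    (hQ : Continuous Q) :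
    ∃ w : ℝ → ℝ → ℝ, (∀ A, Continuous (w A)) ∧
      (∀ A s, w A s = A + Q s + c * (Tp m)^[m] (fun t => psi M (w A t)) s) ∧
      (∀ s, Continuous (fun A => w A s)) ∧
      (∀ A, ∀ U : ℝ → ℝ, Continuous U → (∀ s, 0 ≤ s → A + Q s ≤ U s) →
        (∀ s, 0 ≤ s → A + Q s + c * (Tp m)^[m] (fun t => Real.exp (U t)) s ≤ U s) →
        ∀ s, 0 ≤ s → w A s ≤ U s) := by
  obtain ⟨L, hL1, hLip⟩ := psi_lip M
  set κ : ℝ := max 1 (c * L) with hκdef
  have hκ : 1 ≤ κ := le_max_left _ _
  have hκL : c * L ≤ κ := le_max_right _ _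
  have hPc : ∀ A : ℝ, Continuous fun s => A + Q s := fun A => by fun_prop
  have hdiff : ∀ (A A' : ℝ) (y y' : ℝ →ᵇ ℝ),
      dist (Phi m c M κ hκ _ (hPc A) y) (Phi m c M κ hκ _ (hPc A') y') ≤ (1/4) * (|A - A'| + dist y y') :=
    fun A A' y y' => Phi_diff m c M κ hm hc hκ hL1 hLip hκL (hPc A) (hPc A') (abs_nonneg _)
      (fun s => by simp) y y'
  have hcontr : ∀ A, ContractingWith (1/4 : NNReal) (Phi m c M κ hκ _ (hPc A)) := by
    intro A
    refine ⟨by rw [div_lt_one] <;> norm_num, LipschitzWith.of_dist_le_mul fun y y' => ?_⟩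
    have := hdiff A A y y'
    simpa using this
  set Y : ℝ → (ℝ →ᵇ ℝ) := fun A => ContractingWith.fixedPoint _ (hcontr A) with hY
  have hYfix : ∀ A, Phi m c M κ hκ _ (hPc A) (Y A) = Y A := fun A =>
    (hcontr A).fixedPoint_isFixedPt
  set w : ℝ → ℝ → ℝ := fun A s => A + Q s + Real.exp (κ * |s|) * Y A s with hw
  have hexp : ∀ s : ℝ, Real.exp (κ * |s|) * Real.exp (-(κ * |s|)) = 1 := fun s => by
    rw [← Real.exp_add]; simp
  refine ⟨w, ?_, ?_, ?_, ?_⟩
  · intro A
    have := (Y A).continuous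
    simp only [hw]
    fun_prop
  · intro A s
    have h1 : Y A s = Real.exp (-(κ * |s|)) *
      (c * (Tp m)^[m] (fun t => psi M (w A t)) s) := by
      conv_lhs => rw [← hYfix A]
      rw [Phi_apply]
    have h2 : w A s = A + Q s + Real.exp (κ * |s|) * Y A s := rfl
    rw [h2, h1, ← mul_assoc, hexp, one_mul]
  · intro s
    have hYc : LipschitzWith 1 Y := by
      refine LipschitzWith.of_dist_le_mul fun A A' => ?_
      have h1 := hdiff A A' (Y A) (Y A')
      rw [hYfix, hYfix, ← Real.dist_eq] at h1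
      have : 0 ≤ dist A A' := dist_nonneg
      simp only [NNReal.coe_one, one_mul]
      linarith
    have h2 : Continuous fun A => Y A s :=
      (continuous_eval_const (F := ℝ →ᵇ ℝ) s).comp hYc.continuous
    simp only [hw]
    fun_prop
  · intro A U hU h0 h1 s hs
    have hit : ∀ n : ℕ, ∀ s, 0 ≤ s →
        A + Q s + Real.exp (κ * |s|) * ((Phi m c M κ hκ _ (hPc A))^[n] 0) s ≤ U s := by
      intro n
      induction n with
      | zero => intro s hs; simpa using h0 s hs
      | succ n ih =>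
        intro s hs
        rw [Function.iterate_succ_apply', Phi_apply, ← mul_assoc, hexp, one_mul]
        refine le_trans ?_ (h1 s hs)
        have h3 : (Tp m)^[m] (fun t => psi M (A + Q t + Real.exp (κ * |t|) *
            ((Phi m c M κ hκ _ (hPc A))^[n] 0) t)) s ≤ (Tp m)^[m] (fun t => Real.exp (U t)) s := by
          refine itTp_mono m m (inner_cont M κ (hPc A) _) (by fun_prop) (fun t ht => ?_) hs
          exact (psi_le_exp _ _).trans (Real.exp_le_exp.2 (ih t ht))
        have := mul_le_mul_of_nonneg_left h3 hc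
        linarith
    have hlim := (hcontr A).tendsto_iterate_fixedPoint 0
    have h4 : Tendsto (fun n => ((Phi m c M κ hκ _ (hPc A))^[n] 0) s) atTop (𝓝 (Y A s)) :=
      ((continuous_eval_const (F := ℝ →ᵇ ℝ) s).tendsto (Y A)).comp hlim
    have h5 : Tendsto (fun n => A + Q s + Real.exp (κ * |s|) *
        ((Phi m c M κ hκ _ (hPc A))^[n] 0) s) atTop (𝓝 (w A s)) :=
      tendsto_const_nhds.add (tendsto_const_nhds.mul h4)
    exact le_of_tendsto' h5 fun n => hit n s hs

/-- smoothness by bootstrapping -/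
theorem smooth_of_eq (m : ℕ) (hm : 1 ≤ m) (c M : ℝ) {P w : ℝ → ℝ} (hP : ∀ n : ℕ, ContDiff ℝ n P)
    (hw : Continuous w) (h : ∀ s, w s = P s + c * (Tp m)^[m] (fun t => psi M (w t)) s) :
    ∀ n : ℕ, ContDiff ℝ n w := by
  intro n
  induction n with
  | zero => simpa using hw
  | succ n ih =>
    have h1 : ContDiff ℝ n fun t => psi M (w t) := (psi_contDiff M n).comp ih
    have h2 : ContDiff ℝ (n+1 : ℕ) ((Tp m)^[m] fun t => psi M (w t)) :=
      (itTp_contDiff m m n h1).of_le (by exact_mod_cast (by omega : n+1 ≤ n+m))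
    have h3 : w = fun s => P s + c * (Tp m)^[m] (fun t => psi M (w t)) s := funext h
    rw [h3]
    exact (hP (n+1)).add (contDiff_const.mul h2)

end Pool.Agent.X282.QV
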