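import Pool.Agent.X282.QV.Est
import Pool.Agent.X282.QV.Lap

set_option autoImplicit false

namespace Pool.Agent.X282.QV

open MeasureTheory intervalIntegral Set Filter Topology
open scoped BoundedContinuousFunction

theorem exists_params3 (m : ℕ) (hm : 3 ≤ m) (c μ : ℝ) (hc : 0 < c) (hμ : 0 < μ) :
    ∃ b D : ℝ, 1 ≤ b ∧ 0 ≤ D ∧ D * 2 ^ (m-3) ≤ b ^ 2 ∧ ∀ A : ℝ, Real.exp A ≤ μ * b →
      ∀ s, 0 ≤ s → c * (Tp m)^[m] (fun t => Real.exp (A + 1 - b ^ 2 * (t - 1) ^ 2)) s ≤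
        1 + D * (s - 1) ^ 2 * s ^ (m-3) := by
  set K : ℝ := Real.exp 1 * μ * Real.sqrt Real.pi with hKdef
  have hK0 : 0 < K := by positivity
  set X : ℝ := 4 * c * 2 ^ (m-2) * K with hX
  have hX0 : 0 < X := by positivity
  set δ : ℝ := 1 / (X + 1) with hδdef
  have hδ0 : 0 < δ := by positivity
  have hδ1 : δ ≤ 1 := by rw [hδdef, div_le_one (by positivity)]; linarith
  have hδX : δ * X ≤ 1 := by rw [hδdef, div_mul_eq_mul_div, div_le_one (by positivity)]; linarith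
  set D : ℝ := c * K * ((1 + δ) / δ) ^ 2 with hD
  have hD0 : 0 ≤ D := by positivity
  set Z : ℝ := 2 * c * 2 ^ (m-2) * Real.exp 1 * μ / δ ^ 2 with hZ
  have hZ0 : 0 < Z := by positivity
  set b : ℝ := 1 + Z + D * 2 ^ (m-3) with hb
  have hDm : 0 ≤ D * 2 ^ (m-3) := by positivity
  have hb1 : 1 ≤ b := by linarith
  have hb0 : 0 < b := by linarith
  have hbZ : Z ≤ b := by linarith
  refine ⟨b, D, hb1, hD0, by nlinarith, ?_⟩
  intro A hA s hs
  set f : ℝ → ℝ := fun t => Real.exp (A + 1 - b ^ 2 * (t - 1) ^ 2) with hf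
  have hfc : ContDiff ℝ 1 f := by
    rw [hf]; fun_prop
  have hf0 : ∀ s, 0 ≤ s → 0 ≤ f s := fun s _ => (Real.exp_pos _).le
  have hfe : ∀ t, f t = Real.exp A * Real.exp 1 * Real.exp (-(b ^ 2) * (t - 1) ^ 2) := by
    intro t
    rw [hf, ← Real.exp_add, ← Real.exp_add]
    ring_nf
  have hKf : ∀ s, 0 ≤ s → ∫ t in (0:ℝ)..s, f t ≤ K := by
    intro s hs
    simp_rw [hfe]
    rw [intervalIntegral.integral_const_mul]
    have h1 := gauss_part (B := b ^ 2) (by positivity) hs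
    have h2 : Real.sqrt (Real.pi / b ^ 2) = Real.sqrt Real.pi / b := by
      rw [Real.sqrt_div Real.pi_pos.le, Real.sqrt_sq hb0.le]
    rw [h2] at h1
    calc Real.exp A * Real.exp 1 * ∫ t in (0:ℝ)..s, Real.exp (-(b ^ 2) * (t - 1) ^ 2)
        ≤ (μ * b) * Real.exp 1 * (Real.sqrt Real.pi / b) := by
          gcongr
          exact intervalIntegral.integral_nonneg hs fun t _ => (Real.exp_pos _).le
      _ = K := by rw [hKdef]; field_simp
  set ε : ℝ := μ * b * Real.exp 1 * Real.exp (-(b ^ 2 * δ ^ 2)) with hε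
  have hε0 : 0 ≤ ε := by positivity
  have hεf : ∀ s, 0 ≤ s → s ≤ 1 - δ → f s ≤ ε := by
    intro s hs hs1
    rw [hfe, hε]
    have h1 : Real.exp (-(b ^ 2) * (s - 1) ^ 2) ≤ Real.exp (-(b ^ 2 * δ ^ 2)) := by
      apply Real.exp_le_exp.2
      have : δ ^ 2 ≤ (s - 1) ^ 2 := by nlinarith
      nlinarith [sq_nonneg b]
    gcongr
  have hεb : c * 2 ^ (m-2) * ε ≤ 1 / 2 := by
    have h1 : Real.exp (-(b ^ 2 * δ ^ 2)) ≤ 1 / (b ^ 2 * δ ^ 2) := by
      rw [Real.exp_neg, ← one_div]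
      apply one_div_le_one_div_of_le (by positivity)
      have := Real.add_one_le_exp (b ^ 2 * δ ^ 2)
      linarith
    calc c * 2 ^ (m-2) * ε ≤ c * 2 ^ (m-2) * (μ * b * Real.exp 1 * (1 / (b ^ 2 * δ ^ 2))) := by
          rw [hε]; gcongr
      _ = Z / (2 * b) := by rw [hZ]; field_simp
      _ ≤ 1 / 2 := by rw [div_le_div_iff₀ (by positivity) (by norm_num)]; linarith
  have hδb : c * 2 ^ (m-2) * (2 * δ * K) ≤ 1 / 2 := by
    have : c * 2 ^ (m-2) * (2 * δ * K) = δ * X / 2 := by rw [hX]; ring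
    rw [this]; linarith
  rcases le_total s (1 + δ) with hs1 | hs1
  · have h1 := it_two_pow_le (m := m) (f := f) (by omega) hfc hf0 hK0.le hKf hδ0 hδ1 hε0 hεf (m-2) hs hs1
    rw [show m - 2 + 2 = m by omega] at h1
    have h2 : 0 ≤ D * (s - 1) ^ 2 * s ^ (m-3) := by positivity
    have h3 := mul_le_mul_of_nonneg_left h1 hc.le
    have h4 : c * ((ε + 2 * δ * K) * 2 ^ (m-2)) = c * 2 ^ (m-2) * ε + c * 2 ^ (m-2) * (2 * δ * K) := by
      ring
    linarith
  · have h1 := it_pow_le (m := m) (f := f) (by omega) hfc hf0 hK0.le hKf (m-1) hs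
    rw [show m - 1 + 1 = m by omega] at h1
    have h3 := mul_le_mul_of_nonneg_left h1 hc.le
    have h4 : s ≤ (1 + δ) / δ * (s - 1) := by
      rw [div_mul_eq_mul_div, le_div_iff₀ hδ0]
      nlinarith
    have h5 : s ^ 2 ≤ ((1 + δ) / δ) ^ 2 * (s - 1) ^ 2 := by
      rw [← mul_pow]
      exact pow_le_pow_left₀ hs h4 2
    have h6 : s ^ (m-1) = s ^ 2 * s ^ (m-3) := by
      rw [← pow_add]; congr 1; omega
    have h7 : c * K * s ^ (m-1) ≤ D * (s - 1) ^ 2 * s ^ (m-3) := by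
      rw [h6, hD]
      have h8 : 0 ≤ s ^ (m-3) := by positivity
      have h9 : 0 ≤ c * K := by positivity
      calc c * K * (s ^ 2 * s ^ (m-3)) ≤ c * K * ((((1 + δ) / δ) ^ 2 * (s - 1) ^ 2) * s ^ (m-3)) := by
            gcongr
        _ = _ := by ring
    have h10 : c * (K * s ^ (m-1)) = c * K * s ^ (m-1) := by ring
    linarith

/-! the fixed point with a weight -/

section fix

variable (m : ℕ) (d : ℝ) (κ : ℝ) (ρ U : ℝ → ℝ)

lemma inner_cont2 (hρ : Continuous ρ) (hU : Continuous U) {P : ℝ → ℝ} (hP : Continuous P)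
    (y : ℝ →ᵇ ℝ) :
    Continuous fun t => ρ t * psi 0 (P t + Real.exp (κ * |t|) * y t - U t) := by
  have := psi_continuous 0
  have := y.continuous
  fun_prop

lemma Phi2_cont (hρ : Continuous ρ) (hU : Continuous U) {P : ℝ → ℝ} (hP : Continuous P)
    (y : ℝ →ᵇ ℝ) :
    Continuous fun s => Real.exp (-(κ * |s|)) *
      (d * (Tp m)^[m] (fun t => ρ t * psi 0 (P t + Real.exp (κ * |t|) * y t - U t)) s) := by
  have := itTp_continuous m m (inner_cont2 κ ρ U hρ hU hP y)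
  fun_prop

lemma Phi2_bound (hκ : 1 ≤ κ) {R : ℝ} (hR : ∀ t, |ρ t| ≤ R) (hρ : Continuous ρ)
    (hU : Continuous U) {P : ℝ → ℝ} (hP : Continuous P) (y : ℝ →ᵇ ℝ) (s : ℝ) :
    ‖Real.exp (-(κ * |s|)) * (d * (Tp m)^[m]
      (fun t => ρ t * psi 0 (P t + Real.exp (κ * |t|) * y t - U t)) s)‖
      ≤ |d| * ((R * Real.exp (0+1)) * (1 / (4 * κ)) ^ m) := by
  have hR0 : 0 ≤ R := (abs_nonneg _).trans (hR 0)
  have h1 := itTp_bound m m (inner_cont2 κ ρ U hρ hU hP y) (C := R * Real.exp (0+1)) (κ := κ)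
    (by positivity) (by linarith) (fun t => by
      rw [abs_mul, abs_of_nonneg (psi_nonneg _ _)]
      have e1 : 1 ≤ Real.exp (κ * |t|) := Real.one_le_exp (by positivity)
      have e2 := psi_le 0 (P t + Real.exp (κ * |t|) * y t - U t)
      have e3 : |ρ t| * psi 0 (P t + Real.exp (κ * |t|) * y t - U t) ≤ R * Real.exp (0+1) :=
        mul_le_mul (hR t) e2 (psi_nonneg _ _) hR0
      have e4 : 0 ≤ R * Real.exp (0+1) := by positivity
      nlinarith) s
  rw [norm_mul, norm_mul, Real.norm_of_nonneg (Real.exp_pos _).le, Real.norm_eq_abs, Real.norm_eq_abs]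
  have h2 : Real.exp (-(κ * |s|)) * Real.exp (κ * |s|) = 1 := by rw [← Real.exp_add]; simp
  calc _ ≤ Real.exp (-(κ * |s|)) * (|d| * ((R * Real.exp (0+1)) * (1 / (4 * κ)) ^ m *
          Real.exp (κ * |s|))) := by
        gcongr
    _ = |d| * ((R * Real.exp (0+1)) * (1 / (4 * κ)) ^ m) *
          (Real.exp (-(κ * |s|)) * Real.exp (κ * |s|)) := by ring
    _ = _ := by rw [h2, mul_one]

noncomputable def Phi2 (hκ : 1 ≤ κ) {R : ℝ} (hR : ∀ t, |ρ t| ≤ R) (hρ : Continuous ρ)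
    (hU : Continuous U) (P : ℝ → ℝ) (hP : Continuous P) (y : ℝ →ᵇ ℝ) : ℝ →ᵇ ℝ :=
  BoundedContinuousFunction.ofNormedAddCommGroup _ (Phi2_cont m d κ ρ U hρ hU hP y) _
    (Phi2_bound m d κ ρ U hκ hR hρ hU hP y)

lemma Phi2_apply (hκ : 1 ≤ κ) {R : ℝ} (hR : ∀ t, |ρ t| ≤ R) (hρ : Continuous ρ)
    (hU : Continuous U) (P : ℝ → ℝ) (hP : Continuous P) (y : ℝ →ᵇ ℝ) (s : ℝ) :
    Phi2 m d κ ρ U hκ hR hρ hU P hP y s = Real.exp (-(κ * |s|)) *
      (d * (Tp m)^[m] (fun t => ρ t * psi 0 (P t + Real.exp (κ * |t|) * y t - U t)) s) := rfl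

lemma Phi2_diff (hm : 1 ≤ m) (hκ : 1 ≤ κ) {R : ℝ} (hR : ∀ t, |ρ t| ≤ R) (hρ : Continuous ρ)
    (hU : Continuous U) {L : ℝ} (hL : 1 ≤ L)
    (hLip : ∀ a b, |psi 0 a - psi 0 b| ≤ L * |a - b|) (hκL : |d| * (R * L) ≤ κ)
    {P P' : ℝ → ℝ} (hP : Continuous P) (hP' : Continuous P') {D : ℝ} (hD : 0 ≤ D)
    (hPP : ∀ s, |P s - P' s| ≤ D) (y y' : ℝ →ᵇ ℝ) :
    dist (Phi2 m d κ ρ U hκ hR hρ hU P hP y) (Phi2 m d κ ρ U hκ hR hρ hU P' hP' y') ≤
      (1/4) * (D + dist y y') := by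
  have hR0 : 0 ≤ R := (abs_nonneg _).trans (hR 0)
  rw [BoundedContinuousFunction.dist_le (by positivity)]
  intro s
  rw [Real.dist_eq, Phi2_apply, Phi2_apply, ← mul_sub, ← mul_sub]
  have h0 := congrFun (itTp_sub m m (inner_cont2 κ ρ U hρ hU hP y)
    (inner_cont2 κ ρ U hρ hU hP' y')) s
  rw [← h0]
  have hκ0 : 0 < κ := by linarith
  have h1 := itTp_bound m m ((inner_cont2 κ ρ U hρ hU hP y).sub (inner_cont2 κ ρ U hρ hU hP' y'))
    (C := R * L * (D + dist y y')) (κ := κ) (by positivity) hκ0 (fun t => by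
      have e1 : 1 ≤ Real.exp (κ * |t|) := Real.one_le_exp (by positivity)
      have e2 : |y t - y' t| ≤ dist y y' := by
        rw [← Real.dist_eq]; exact BoundedContinuousFunction.dist_coe_le_dist t
      have e5 : ((fun t => ρ t * psi 0 (P t + Real.exp (κ * |t|) * y t - U t)) -
          fun t => ρ t * psi 0 (P' t + Real.exp (κ * |t|) * y' t - U t)) t =
          ρ t * (psi 0 (P t + Real.exp (κ * |t|) * y t - U t) -
            psi 0 (P' t + Real.exp (κ * |t|) * y' t - U t)) := by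
        simp only [Pi.sub_apply]; ring
      rw [e5, abs_mul]
      have e6 : |psi 0 (P t + Real.exp (κ * |t|) * y t - U t) -
            psi 0 (P' t + Real.exp (κ * |t|) * y' t - U t)| ≤
            L * ((D + dist y y') * Real.exp (κ * |t|)) := by
        refine (hLip _ _).trans ?_
        refine mul_le_mul_of_nonneg_left ?_ (by linarith)
        have e3 : P t + Real.exp (κ * |t|) * y t - U t - (P' t + Real.exp (κ * |t|) * y' t - U t) =
          (P t - P' t) + Real.exp (κ * |t|) * (y t - y' t) := by ring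
        rw [e3]
        refine (abs_add_le _ _).trans ?_
        rw [abs_mul, abs_of_pos (Real.exp_pos _)]
        have e4 := hPP t
        nlinarith [abs_nonneg (y t - y' t)]
      calc _ ≤ R * (L * ((D + dist y y') * Real.exp (κ * |t|))) :=
            mul_le_mul (hR t) e6 (abs_nonneg _) hR0
        _ = _ := by ring) s
  rw [abs_mul, abs_mul, abs_of_pos (Real.exp_pos _)]
  have h2 : Real.exp (-(κ * |s|)) * Real.exp (κ * |s|) = 1 := by rw [← Real.exp_add]; simp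
  have h3 : (1 / (4 * κ)) ^ m ≤ 1 / (4 * κ) := by
    have : (1 / (4 * κ)) ^ m ≤ (1 / (4 * κ)) ^ 1 := by
      apply pow_le_pow_of_le_one (by positivity) _ hm
      rw [div_le_one (by positivity)]; linarith
    simpa using this
  calc _ ≤ Real.exp (-(κ * |s|)) * (|d| * (R * L * (D + dist y y') * (1 / (4 * κ)) ^ m *
          Real.exp (κ * |s|))) := by
        gcongr
        exact h1
    _ = (|d| * (R * L)) * (D + dist y y') * (1 / (4 * κ)) ^ m *
          (Real.exp (-(κ * |s|)) * Real.exp (κ * |s|)) := by ring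
    _ = (|d| * (R * L)) * (D + dist y y') * (1 / (4 * κ)) ^ m := by rw [h2, mul_one]
    _ ≤ κ * (D + dist y y') * (1 / (4 * κ)) := by
        have : 0 ≤ D + dist y y' := by positivity
        gcongr
    _ = _ := by field_simp

end fix

theorem exists_family2 (m : ℕ) (hm : 1 ≤ m) (d : ℝ) (ρ U : ℝ → ℝ) {R : ℝ} (hR : ∀ t, |ρ t| ≤ R)
    (hρ : Continuous ρ) (hU : Continuous U) (Q : ℝ → ℝ) (hQ : Continuous Q) :
    ∃ w : ℝ → ℝ → ℝ, (∀ A, Continuous (w A)) ∧
      (∀ A s, w A s = A + Q s + d * (Tp m)^[m] (fun t => ρ t * psi 0 (w A t - U t)) s) ∧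
      (∀ s, Continuous (fun A => w A s)) ∧
      (0 ≤ d → ∀ A, ∀ V g : ℝ → ℝ, Continuous V → Continuous g → (∀ s, 0 ≤ s → A + Q s ≤ V s) →
        (∀ s, 0 ≤ s → 0 ≤ ρ s) → (∀ s, 0 ≤ s → ρ s * Real.exp (V s - U s) ≤ g s) →
        (∀ s, 0 ≤ s → A + Q s + d * (Tp m)^[m] g s ≤ V s) →
        ∀ s, 0 ≤ s → w A s ≤ V s) := by
  obtain ⟨L, hL1, hLip⟩ := psi_lip 0
  set κ : ℝ := max 1 (|d| * (R * L)) with hκdef
  have hκ : 1 ≤ κ := le_max_left _ _
  have hκL : |d| * (R * L) ≤ κ := le_max_right _ _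
  have hPc : ∀ A : ℝ, Continuous fun s => A + Q s := fun A => by fun_prop
  have hdiff : ∀ (A A' : ℝ) (y y' : ℝ →ᵇ ℝ),
      dist (Phi2 m d κ ρ U hκ hR hρ hU _ (hPc A) y) (Phi2 m d κ ρ U hκ hR hρ hU _ (hPc A') y') ≤
        (1/4) * (|A - A'| + dist y y') :=
    fun A A' y y' => Phi2_diff m d κ ρ U hm hκ hR hρ hU hL1 hLip hκL (hPc A) (hPc A')
      (abs_nonneg _) (fun s => by simp) y y'
  have hcontr : ∀ A, ContractingWith (1/4 : NNReal) (Phi2 m d κ ρ U hκ hR hρ hU _ (hPc A)) := by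
    intro A
    refine ⟨by rw [div_lt_one] <;> norm_num, LipschitzWith.of_dist_le_mul fun y y' => ?_⟩
    have := hdiff A A y y'
    simpa using this
  set Y : ℝ → (ℝ →ᵇ ℝ) := fun A => ContractingWith.fixedPoint _ (hcontr A) with hY
  have hYfix : ∀ A, Phi2 m d κ ρ U hκ hR hρ hU _ (hPc A) (Y A) = Y A := fun A =>
    (hcontr A).fixedPoint_isFixedPt
  set w : ℝ → ℝ → ℝ := fun A s => A + Q s + Real.exp (κ * |s|) * Y A s with hw
  have hexp : ∀ s : ℝ, Real.exp (κ * |s|) * Real.exp (-(κ * |s|)) = 1 := fun s => by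
    rw [← Real.exp_add]; simp
  refine ⟨w, ?_, ?_, ?_, ?_⟩
  · intro A
    have := (Y A).continuous
    simp only [hw]
    fun_prop
  · intro A s
    have h1 : Y A s = Real.exp (-(κ * |s|)) *
      (d * (Tp m)^[m] (fun t => ρ t * psi 0 (w A t - U t)) s) := by
      conv_lhs => rw [← hYfix A]
      rw [Phi2_apply]
    have h2 : w A s = A + Q s + Real.exp (κ * |s|) * Y A s := rfl
    rw [h2, h1, ← mul_assoc, hexp, one_mul]
  · intro s
    have hYc : LipschitzWith 1 Y := by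
      refine LipschitzWith.of_dist_le_mul fun A A' => ?_
      have h1 := hdiff A A' (Y A) (Y A')
      rw [hYfix, hYfix, ← Real.dist_eq] at h1
      have : 0 ≤ dist A A' := dist_nonneg
      simp only [NNReal.coe_one, one_mul]
      linarith
    have h2 : Continuous fun A => Y A s :=
      (continuous_eval_const (F := ℝ →ᵇ ℝ) s).comp hYc.continuous
    simp only [hw]
    fun_prop
  · intro hd A V g hV hg h0 hρ0 hρg h1 s hs
    have hit : ∀ n : ℕ, ∀ s, 0 ≤ s →
        A + Q s + Real.exp (κ * |s|) * ((Phi2 m d κ ρ U hκ hR hρ hU _ (hPc A))^[n] 0) s ≤ V s := by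
      intro n
      induction n with
      | zero => intro s hs; simpa using h0 s hs
      | succ n ih =>
        intro s hs
        rw [Function.iterate_succ_apply', Phi2_apply, ← mul_assoc, hexp, one_mul]
        refine le_trans ?_ (h1 s hs)
        have h3 : (Tp m)^[m] (fun t => ρ t * psi 0 (A + Q t + Real.exp (κ * |t|) *
            ((Phi2 m d κ ρ U hκ hR hρ hU _ (hPc A))^[n] 0) t - U t)) s ≤ (Tp m)^[m] g s := by
          refine itTp_mono m m (inner_cont2 κ ρ U hρ hU (hPc A) _) hg (fun t ht => ?_) hs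
          refine le_trans ?_ (hρg t ht)
          refine mul_le_mul_of_nonneg_left ?_ (hρ0 t ht)
          refine (psi_le_exp _ _).trans (Real.exp_le_exp.2 ?_)
          have := ih t ht
          linarith
        have := mul_le_mul_of_nonneg_left h3 hd
        linarith
    have hlim := (hcontr A).tendsto_iterate_fixedPoint 0
    have h4 : Tendsto (fun n => ((Phi2 m d κ ρ U hκ hR hρ hU _ (hPc A))^[n] 0) s) atTop
        (𝓝 (Y A s)) := ((continuous_eval_const (F := ℝ →ᵇ ℝ) s).tendsto (Y A)).comp hlim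
    have h5 : Tendsto (fun n => A + Q s + Real.exp (κ * |s|) *
        ((Phi2 m d κ ρ U hκ hR hρ hU _ (hPc A))^[n] 0) s) atTop (𝓝 (w A s)) :=
      tendsto_const_nhds.add (tendsto_const_nhds.mul h4)
    exact le_of_tendsto' h5 fun n => hit n s hs

/-- smoothness by bootstrapping -/
theorem smooth_of_eq2 (m : ℕ) (hm : 1 ≤ m) (d : ℝ) {P w ρ U : ℝ → ℝ} (hP : Sm P) (hρ : Sm ρ)
    (hU : Sm U) (hw : Continuous w)
    (h : ∀ s, w s = P s + d * (Tp m)^[m] (fun t => ρ t * psi 0 (w t - U t)) s) : Sm w := by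
  intro n
  induction n with
  | zero => simpa using hw
  | succ n ih =>
    have h1 : ContDiff ℝ n fun t => ρ t * psi 0 (w t - U t) :=
      (hρ n).mul ((psi_contDiff 0 n).comp (ih.sub (hU n)))
    have h2 : ContDiff ℝ (n+1 : ℕ) ((Tp m)^[m] fun t => ρ t * psi 0 (w t - U t)) :=
      (itTp_contDiff m m n h1).of_le (by exact_mod_cast (by omega : n+1 ≤ n+m))
    have h3 : w = fun s => P s + d * (Tp m)^[m] (fun t => ρ t * psi 0 (w t - U t)) s := funext h
    rw [h3]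
    exact (hP (n+1)).add (contDiff_const.mul h2)

end Pool.Agent.X282.QV
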