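import Pool.Agent.X282.QV.GenB

set_option autoImplicit false

namespace Pool.Agent.X282.QV

open MeasureTheory Laplacian InnerProductSpace Filter Topology Set Polynomial

section general
variable {E : Type*} [NormedAddCommGroup E] [InnerProductSpace ℝ E] [FiniteDimensional ℝ E]
  [MeasurableSpace E] [BorelSpace E]

lemma laplacian_eq_sum_fderiv {f : E → ℝ} (hf : ContDiff ℝ 2 f) (x : E) :
    Δ f x = ∑ i, fderiv ℝ (fun y => fderiv ℝ f y (stdOrthonormalBasis ℝ E i)) x
      (stdOrthonormalBasis ℝ E i) := by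
  rw [laplacian_eq_iteratedFDeriv_stdOrthonormalBasis f]
  refine Finset.sum_congr rfl fun i _ => ?_
  rw [iteratedFDeriv_two_apply]
  have h1 : DifferentiableAt ℝ (fderiv ℝ f) x :=
    (hf.fderiv_right (m := 1) (by norm_num)).differentiable (by norm_num) x
  rw [fderiv_clm_apply h1 (differentiableAt_const _)]
  simp

lemma contDiff_dir {f : E → ℝ} (hf : ContDiff ℝ 2 f) (v : E) :
    ContDiff ℝ 1 (fun y => fderiv ℝ f y v) :=
  (hf.fderiv_right (m := 1) (by norm_num)).clm_apply contDiff_const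

lemma hasCompactSupport_dir {f : E → ℝ} (hf : HasCompactSupport f) (v : E) :
    HasCompactSupport (fun y => fderiv ℝ f y v) := by
  have := hf.fderiv (𝕜 := ℝ)
  exact this.comp_left (g := fun L : E →L[ℝ] ℝ => L v) (by simp)

/-- Green's identity. -/
lemma green {v φ : E → ℝ} (hv : ContDiff ℝ 2 v) (hφ : ContDiff ℝ 2 φ)
    (hc : HasCompactSupport φ) : ∫ x, v x * Δ φ x = ∫ x, Δ v x * φ x := by
  have key : ∀ e : E, ∫ x, v x * fderiv ℝ (fun y => fderiv ℝ φ y e) x e =
      ∫ x, fderiv ℝ (fun y => fderiv ℝ v y e) x e * φ x := by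
    intro e
    have hv1 := contDiff_dir hv e
    have hφ1 := contDiff_dir hφ e
    have hφc := hasCompactSupport_dir hc e
    have hv2c : Continuous (fun x => fderiv ℝ (fun y => fderiv ℝ v y e) x e) :=
      (hv1.continuous_fderiv (by norm_num)).clm_apply continuous_const
    have hφ2c : Continuous (fun x => fderiv ℝ (fun y => fderiv ℝ φ y e) x e) :=
      (hφ1.continuous_fderiv (by norm_num)).clm_apply continuous_const
    have hφ2s : HasCompactSupport (fun x => fderiv ℝ (fun y => fderiv ℝ φ y e) x e) :=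
      (hφc.fderiv (𝕜 := ℝ)).comp_left (g := fun L : E →L[ℝ] ℝ => L e) (by simp)
    have s1 := integral_mul_fderiv_eq_neg_fderiv_mul_of_integrable (μ := volume) (f := v)
      (g := fun y => fderiv ℝ φ y e) (v := e)
      ((hv1.continuous.mul hφ1.continuous).integrable_of_hasCompactSupport hφc.mul_left)
      ((hv.continuous.mul hφ2c).integrable_of_hasCompactSupport hφ2s.mul_left)
      ((hv.continuous.mul hφ1.continuous).integrable_of_hasCompactSupport hφc.mul_left)
      (fun x _ => hv.differentiable (by norm_num) x)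
      (fun x _ => hφ1.differentiable (by norm_num) x)
    have s2 := integral_mul_fderiv_eq_neg_fderiv_mul_of_integrable (μ := volume)
      (f := fun y => fderiv ℝ v y e) (g := φ) (v := e)
      ((hv2c.mul hφ.continuous).integrable_of_hasCompactSupport hc.mul_left)
      ((hv1.continuous.mul hφ1.continuous).integrable_of_hasCompactSupport hφc.mul_left)
      ((hv1.continuous.mul hφ.continuous).integrable_of_hasCompactSupport hc.mul_left)
      (fun x _ => hv1.differentiable (by norm_num) x)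
      (fun x _ => hφ.differentiable (by norm_num) x)
    rw [s1, s2, neg_neg]
  simp_rw [laplacian_eq_sum_fderiv hv, laplacian_eq_sum_fderiv hφ, Finset.mul_sum, Finset.sum_mul]
  rw [integral_finsetSum, integral_finsetSum]
  · exact Finset.sum_congr rfl fun i _ => key _
  · intro i _
    have hv1 := contDiff_dir hv (stdOrthonormalBasis ℝ E i)
    exact (((hv1.continuous_fderiv (by norm_num)).clm_apply continuous_const).mul
      hφ.continuous).integrable_of_hasCompactSupport hc.mul_left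
  · intro i _
    have hφ1 := contDiff_dir hφ (stdOrthonormalBasis ℝ E i)
    exact (hv.continuous.mul ((hφ1.continuous_fderiv (by norm_num)).clm_apply
      continuous_const)).integrable_of_hasCompactSupport
      (((hasCompactSupport_dir hc _).fderiv (𝕜 := ℝ)).comp_left
        (g := fun L : E →L[ℝ] ℝ => L (stdOrthonormalBasis ℝ E i)) (by simp)).mul_left

end general

section weak

variable {m : ℕ} {φ u : EuclideanSpace ℝ (Fin (2 * m)) → ℝ}

lemma negLap_contDiff (hφ : ∀ n : ℕ, ContDiff ℝ n φ) : ∀ n : ℕ, ContDiff ℝ n (negLap m φ) := by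
  intro n
  have h0 : negLap m φ = fun x => -(∑ i, fderiv ℝ (fun y => fderiv ℝ φ y
      (stdOrthonormalBasis ℝ (EuclideanSpace ℝ (Fin (2 * m))) i)) x
      (stdOrthonormalBasis ℝ (EuclideanSpace ℝ (Fin (2 * m))) i)) := by
    ext x
    unfold negLap
    rw [laplacian_eq_sum_fderiv (hφ 2)]
  rw [h0]
  refine ContDiff.neg (ContDiff.sum fun i _ => ?_)
  have h1 : ContDiff ℝ (n+1 : ℕ) (fun y => fderiv ℝ φ y
      (stdOrthonormalBasis ℝ (EuclideanSpace ℝ (Fin (2 * m))) i)) :=
    ((hφ (n+2)).fderiv_right (m := (n+1 : ℕ)) (by norm_cast)).clm_apply contDiff_const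
  exact (h1.fderiv_right (m := (n : ℕ)) (by norm_cast)).clm_apply contDiff_const

lemma negLap_support (hc : HasCompactSupport φ) : HasCompactSupport (negLap m φ) := by
  refine hc.mono' fun x hx => ?_
  by_contra hn
  have h1 : φ =ᶠ[𝓝 x] fun _ => (0:ℝ) := notMem_tsupport_iff_eventuallyEq.1 hn
  have h2 := (InnerProductSpace.laplacian_congr_nhds h1).self_of_nhds
  apply hx
  unfold negLap
  rw [h2, InnerProductSpace.laplacian_const]
  simp

lemma itNegLap_contDiff (k : ℕ) (hφ : ∀ n : ℕ, ContDiff ℝ n φ) :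
    ∀ n : ℕ, ContDiff ℝ n ((negLap m)^[k] φ) := by
  induction k with
  | zero => exact hφ
  | succ k ih => rw [Function.iterate_succ_apply']; exact negLap_contDiff ih

lemma itNegLap_support (k : ℕ) (hc : HasCompactSupport φ) :
    HasCompactSupport ((negLap m)^[k] φ) := by
  induction k with
  | zero => exact hc
  | succ k ih => rw [Function.iterate_succ_apply']; exact negLap_support ih

lemma green_it (k : ℕ) (hφ : ∀ n : ℕ, ContDiff ℝ n φ) (hc : HasCompactSupport φ) :
    ∀ {u : EuclideanSpace ℝ (Fin (2 * m)) → ℝ}, (∀ n : ℕ, ContDiff ℝ n u) →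
    ∫ x, u x * (negLap m)^[k] φ x = ∫ x, (negLap m)^[k] u x * φ x := by
  induction k with
  | zero => intro u hu; rfl
  | succ k ih =>
    intro u hu
    rw [Function.iterate_succ_apply', Function.iterate_succ_apply, ← ih (negLap_contDiff hu)]
    have h1 := green (hu 2) (itNegLap_contDiff k hφ 2) (itNegLap_support k hc)
    unfold negLap at h1 ⊢
    simp only [mul_neg, neg_mul, integral_neg]
    rw [h1]

lemma Tp_local {f : ℝ → ℝ} {R η : ℝ} (hη : 0 ≤ η) (h : ∀ s ∈ Icc 0 R, |f s| ≤ η) :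
    ∀ s ∈ Icc 0 R, |Tp m f s| ≤ R * η := by
  have hA : ∀ t ∈ Icc 0 R, |Aop (m-1) f t| ≤ η := by
    intro t ht
    unfold Aop
    have := intervalIntegral.norm_integral_le_of_norm_le_const (a := 0) (b := 1)
      (f := fun u => u ^ (m-1) * f (t * u)) (C := η) ?_
    · simpa using this
    · intro u hu
      rw [uIoc_of_le zero_le_one] at hu
      rw [Real.norm_eq_abs, abs_mul, abs_pow, abs_of_pos hu.1]
      have h1 : u ^ (m-1) ≤ 1 := pow_le_one₀ hu.1.le hu.2
      have h2 : 0 ≤ u ^ (m-1) := pow_nonneg hu.1.le _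
      have h3 : |f (t * u)| ≤ η := h _ ⟨mul_nonneg ht.1 hu.1.le, by nlinarith [ht.1, ht.2, hu.2]⟩
      nlinarith [abs_nonneg (f (t * u))]
  intro s hs
  unfold Tp
  have := intervalIntegral.norm_integral_le_of_norm_le_const (a := 0) (b := s)
      (f := fun t => (1/4) * Aop (m-1) f t) (C := η) ?_
  · rw [Real.norm_eq_abs, sub_zero, abs_of_nonneg hs.1] at this
    refine this.trans ?_
    rw [mul_comm]
    exact mul_le_mul_of_nonneg_right hs.2 hη
  · intro t ht
    rw [uIoc_of_le hs.1] at ht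
    have := hA t ⟨ht.1.le, ht.2.trans hs.2⟩
    rw [Real.norm_eq_abs, abs_mul, abs_of_pos (by norm_num : (0:ℝ) < 1/4)]
    linarith

lemma itTp_local (k : ℕ) {f : ℝ → ℝ} {R η : ℝ} (hR : 0 ≤ R) (hη : 0 ≤ η)
    (h : ∀ s ∈ Icc 0 R, |f s| ≤ η) : ∀ s ∈ Icc 0 R, |(Tp m)^[k] f s| ≤ R ^ k * η := by
  induction k with
  | zero => simpa using h
  | succ k ih =>
    rw [Function.iterate_succ_apply', pow_succ']
    have := Tp_local (m := m) (by positivity) ih
    simpa [mul_assoc] using this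

lemma smooth_radial {W : ℝ → ℝ} (hW : Sm W) (n : ℕ) :
    ContDiff ℝ n (fun x : EuclideanSpace ℝ (Fin (2 * m)) => W (‖x‖ ^ 2)) :=
  (hW n).comp (contDiff_norm_sq ℝ)

lemma weak_poly (p : ℝ[X]) (hp : ∀ n, m ≤ n → p.coeff n = 0) (hφ : ∀ n : ℕ, ContDiff ℝ n φ)
    (hc : HasCompactSupport φ) : ∫ x, p.eval (‖x‖ ^ 2) * (negLap m)^[m] φ x = 0 := by
  have h1 := green_it m hφ hc (u := fun x => p.eval (‖x‖ ^ 2))
    (fun n => smooth_radial (Sm_poly p) n)
  rw [h1, itNegLap_any m m (Sm_poly p), itLr_poly m m p hp]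
  simp

lemma weak_smooth (hm : 1 ≤ m) {g : ℝ → ℝ} (hg : Sm g) (hφ : ∀ n : ℕ, ContDiff ℝ n φ)
    (hc : HasCompactSupport φ) :
    ∫ x, (Tp m)^[m] g (‖x‖ ^ 2) * (negLap m)^[m] φ x = (-1) ^ m * ∫ x, g (‖x‖ ^ 2) * φ x := by
  have h1 := green_it m hφ hc (u := fun x => (Tp m)^[m] g (‖x‖ ^ 2))
    (fun n => smooth_radial (hg.itTp m m) n)
  rw [h1, itNegLap_any m m (hg.itTp m m), itLr_itTp m hm m hg, ← integral_const_mul]
  congr 1; ext x; ring

lemma weak_Tp (hm : 1 ≤ m) {g : ℝ → ℝ} (hg : Continuous g) (hφ : ∀ n : ℕ, ContDiff ℝ n φ)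
    (hc : HasCompactSupport φ) :
    ∫ x, (Tp m)^[m] g (‖x‖ ^ 2) * (negLap m)^[m] φ x = (-1) ^ m * ∫ x, g (‖x‖ ^ 2) * φ x := by
  set χ := (negLap m)^[m] φ with hχ
  have hχc : Continuous χ := (itNegLap_contDiff m hφ 0).continuous
  have hχs : HasCompactSupport χ := itNegLap_support m hc
  have hφc : Continuous φ := (hφ 0).continuous
  obtain ⟨R1, hR1⟩ := hχs.isBounded.subset_closedBall (0 : EuclideanSpace ℝ (Fin (2 * m)))
  obtain ⟨R2, hR2⟩ := hc.isBounded.subset_closedBall (0 : EuclideanSpace ℝ (Fin (2 * m)))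
  set r : ℝ := |R1| + |R2| with hr
  set R : ℝ := r ^ 2 with hR
  have hin : ∀ x : EuclideanSpace ℝ (Fin (2 * m)), (χ x ≠ 0 ∨ φ x ≠ 0) → ‖x‖ ^ 2 ∈ Icc 0 R := by
    intro x hx
    refine ⟨by positivity, ?_⟩
    have h1 : ‖x‖ ≤ r := by
      rcases hx with hx | hx
      · have := hR1 (subset_tsupport _ hx)
        rw [mem_closedBall_zero_iff] at this
        have := le_abs_self R1
        have := abs_nonneg R2
        linarith
      · have := hR2 (subset_tsupport _ hx)
        rw [mem_closedBall_zero_iff] at this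
        have := le_abs_self R2
        have := abs_nonneg R1
        linarith
    exact pow_le_pow_left₀ (norm_nonneg _) h1 2
  have hR0 : 0 ≤ R := by positivity
  have hχi : Integrable χ := hχc.integrable_of_hasCompactSupport hχs
  have hφi : Integrable φ := hφc.integrable_of_hasCompactSupport hc
  have hTc : ∀ {f : ℝ → ℝ}, Continuous f → Integrable fun x => (Tp m)^[m] f (‖x‖ ^ 2) * χ x := by
    intro f hf
    have := itTp_continuous m m hf
    exact (by fun_prop : Continuous fun x => (Tp m)^[m] f (‖x‖ ^ 2) * χ x).integrable_of_hasCompactSupport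
      hχs.mul_left
  have hgc : ∀ {f : ℝ → ℝ}, Continuous f → Integrable fun x => f (‖x‖ ^ 2) * φ x := by
    intro f hf
    exact (by fun_prop : Continuous fun x => f (‖x‖ ^ 2) * φ x).integrable_of_hasCompactSupport
      hc.mul_left
  set C : ℝ := R ^ m * (∫ x, |χ x|) + ∫ x, |φ x| with hC
  have hC0 : 0 ≤ C := by
    have h1 : 0 ≤ ∫ x, |χ x| := integral_nonneg fun x => abs_nonneg _
    have h2 : 0 ≤ ∫ x, |φ x| := integral_nonneg fun x => abs_nonneg _
    positivity
  have key : ∀ η : ℝ, 0 < η → |(∫ x, (Tp m)^[m] g (‖x‖ ^ 2) * χ x) -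
      (-1) ^ m * ∫ x, g (‖x‖ ^ 2) * φ x| ≤ η * C := by
    intro η hη
    obtain ⟨p, hp⟩ := exists_polynomial_near_of_continuousOn 0 R g hg.continuousOn η hη
    have hpg : ∀ s ∈ Icc 0 R, |g s - p.eval s| ≤ η := fun s hs => by
      rw [abs_sub_comm]; exact (hp s hs).le
    have h1 := weak_smooth hm (Sm_poly p) hφ hc
    rw [← hχ] at h1
    have hpc : Continuous fun s => p.eval s := p.continuous
    have h2 : |(∫ x, (Tp m)^[m] g (‖x‖ ^ 2) * χ x) - ∫ x, (Tp m)^[m] (fun s => p.eval s) (‖x‖ ^ 2) * χ x|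
        ≤ R ^ m * η * ∫ x, |χ x| := by
      rw [← integral_sub (hTc hg) (hTc hpc), ← integral_const_mul, ← Real.norm_eq_abs]
      refine norm_integral_le_of_norm_le (hχi.abs.const_mul _) (Eventually.of_forall fun x => ?_)
      rw [← sub_mul, Real.norm_eq_abs, abs_mul]
      by_cases hx : χ x = 0
      · simp [hx]
      · refine mul_le_mul_of_nonneg_right ?_ (abs_nonneg _)
        have h3 := itTp_local (m := m) m hR0 hη.le hpg _ (hin x (Or.inl hx))
        rw [itTp_sub m m hg hpc] at h3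
        exact h3
    have h4 : |(∫ x, g (‖x‖ ^ 2) * φ x) - ∫ x, p.eval (‖x‖ ^ 2) * φ x| ≤ η * ∫ x, |φ x| := by
      rw [← integral_sub (hgc hg) (hgc hpc), ← integral_const_mul, ← Real.norm_eq_abs]
      refine norm_integral_le_of_norm_le (hφi.abs.const_mul _) (Eventually.of_forall fun x => ?_)
      rw [← sub_mul, Real.norm_eq_abs, abs_mul]
      by_cases hx : φ x = 0
      · simp [hx]
      · exact mul_le_mul_of_nonneg_right (hpg _ (hin x (Or.inr hx))) (abs_nonneg _)
    have h5 : (∫ x, (Tp m)^[m] g (‖x‖ ^ 2) * χ x) - (-1) ^ m * ∫ x, g (‖x‖ ^ 2) * φ x =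
        ((∫ x, (Tp m)^[m] g (‖x‖ ^ 2) * χ x) -
          ∫ x, (Tp m)^[m] (fun s => p.eval s) (‖x‖ ^ 2) * χ x) -
        (-1) ^ m * ((∫ x, g (‖x‖ ^ 2) * φ x) - ∫ x, p.eval (‖x‖ ^ 2) * φ x) := by
      rw [h1]; ring
    rw [h5]
    refine (abs_sub _ _).trans ?_
    rw [abs_mul, abs_pow, abs_neg, abs_one, one_pow, one_mul]
    rw [hC]
    nlinarith
  by_contra hne
  have hpos : 0 < |(∫ x, (Tp m)^[m] g (‖x‖ ^ 2) * χ x) -
      (-1) ^ m * ∫ x, g (‖x‖ ^ 2) * φ x| := abs_pos.2 (sub_ne_zero.2 hne)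
  set δ := |(∫ x, (Tp m)^[m] g (‖x‖ ^ 2) * χ x) - (-1) ^ m * ∫ x, g (‖x‖ ^ 2) * φ x| with hδ
  have h6 := key (δ / (2 * (C + 1))) (by positivity)
  have h7 : δ / (2 * (C + 1)) * C ≤ δ / 2 := by
    rw [div_mul_eq_mul_div, div_le_div_iff₀ (by positivity) (by norm_num)]
    nlinarith
  linarith

end weak

end Pool.Agent.X282.QV
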