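import Pool.Agent.X282.QV.GenC

set_option autoImplicit false

namespace Pool.Agent.X282.QV

open MeasureTheory Filter Topology Set Polynomial

lemma rho_boundW {W : ℝ → ℝ} {K : ℝ} (hK : 0 < K) (hW0 : ∀ t, 0 ≤ W t)
    (hWK : ∀ t, W t ≤ K * Real.exp |t|) {β : ℝ} (hβ : 1 ≤ β) (C t : ℝ) :
    |W t * Real.exp (C - (2 * β) ^ 2 * (t - 1) ^ 2)| ≤ K * Real.exp (C + 5/4) := by
  rw [abs_mul, abs_of_nonneg (hW0 t), abs_of_pos (Real.exp_pos _)]
  have h1 := hWK t
  have h2 : |t| ≤ |t - 1| + 1 := by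
    have := abs_sub_abs_le_abs_sub t 1
    rw [abs_one] at this
    linarith
  have h3 : |t| + (C - (2 * β) ^ 2 * (t - 1) ^ 2) ≤ C + 5/4 := by
    have h4 : (t - 1) ^ 2 = |t - 1| ^ 2 := (sq_abs _).symm
    have h5 : |t - 1| ^ 2 ≤ (2 * β) ^ 2 * |t - 1| ^ 2 := by
      have : 1 ≤ (2 * β) ^ 2 := by nlinarith
      nlinarith [sq_nonneg |t - 1|]
    rw [h4]
    nlinarith [sq_nonneg (|t - 1| - 1/2)]
  calc W t * Real.exp (C - (2 * β) ^ 2 * (t - 1) ^ 2)
      ≤ (K * Real.exp |t|) * Real.exp (C - (2 * β) ^ 2 * (t - 1) ^ 2) := by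
        gcongr
    _ = K * Real.exp (|t| + (C - (2 * β) ^ 2 * (t - 1) ^ 2)) := by
        rw [Real.exp_add]; ring
    _ ≤ _ := by gcongr

lemma weight_boundW {W : ℝ → ℝ} {K : ℝ} (hK : 0 < K)
    (hWK : ∀ t, W t ≤ K * Real.exp |t|) {β : ℝ} (hβ : 1 ≤ β) (C : ℝ) {t : ℝ} (ht : 0 ≤ t) :
    W t * Real.exp (C - (2 * β) ^ 2 * (t - 1) ^ 2) ≤
      K * Real.exp (5/4) * Real.exp (C - β ^ 2 * (t - 1) ^ 2) := by
  have h1 := hWK t
  rw [abs_of_nonneg ht] at h1
  have h3 : t + (C - (2 * β) ^ 2 * (t - 1) ^ 2) ≤ 5/4 + (C - β ^ 2 * (t - 1) ^ 2) := by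
    have h5 : (t - 1) ^ 2 ≤ 3 * β ^ 2 * (t - 1) ^ 2 := by
      have : 1 ≤ 3 * β ^ 2 := by nlinarith
      nlinarith [sq_nonneg (t - 1)]
    nlinarith [sq_nonneg (t - 1 - 1/2)]
  calc W t * Real.exp (C - (2 * β) ^ 2 * (t - 1) ^ 2)
      ≤ (K * Real.exp t) * Real.exp (C - (2 * β) ^ 2 * (t - 1) ^ 2) := by
        gcongr
    _ = K * Real.exp (t + (C - (2 * β) ^ 2 * (t - 1) ^ 2)) := by
        rw [Real.exp_add]; ring
    _ ≤ K * Real.exp (5/4 + (C - β ^ 2 * (t - 1) ^ 2)) := by gcongr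
    _ = _ := by rw [Real.exp_add]; ring

theorem weightedW (m : ℕ) (hm : 3 ≤ m) (W : ℝ → ℝ) (hWc : Continuous W) (hW0 : ∀ t, 0 ≤ W t)
    (K : ℝ) (hK : 0 < K) (hWK : ∀ t, W t ≤ K * Real.exp |t|) (hW1 : ∀ t, 1 ≤ t → 1 ≤ W t)
    (V : ℝ) (hV : 0 < V) :
    ∃ u : EuclideanSpace ℝ (Fin (2 * m)) → ℝ, Continuous u ∧
    (∀ x y, ‖x‖ = ‖y‖ → u x = u y) ∧
    (∀ φ : EuclideanSpace ℝ (Fin (2 * m)) → ℝ, (∀ n : ℕ, ContDiff ℝ n φ) → HasCompactSupport φ →
      ∫ x, u x * (negLap m)^[m] φ x = ∫ x, Real.exp (2 * m * u x) * W (‖x‖ ^ 2) * φ x) ∧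
    Integrable (fun x => Real.exp (2 * m * u x) * W (‖x‖ ^ 2)) ∧
    ∫ x, Real.exp (2 * m * u x) * W (‖x‖ ^ 2) = V := by
  have hm1 : 1 ≤ m := by omega
  set E := EuclideanSpace ℝ (Fin (2 * m)) with hE
  have hfin : Module.finrank ℝ E = 2 * m := finrank_euclideanSpace_fin
  set ω : ℝ := (volume (Metric.ball (0 : E) 1)).toReal with hω
  have hω0 : 0 < ω := ENNReal.toReal_pos (Metric.measure_ball_pos _ _ one_pos).ne'
    measure_ball_lt_top.ne
  have hmR : (0:ℝ) < m := by exact_mod_cast (by omega : 0 < m)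
  set Cq : ℝ := K * Real.exp (5/4) with hCq
  have hCq0 : 0 < Cq := by positivity
  set μ : ℝ := V * Real.exp 4 / ω with hμ
  have hμ0 : 0 < μ := by positivity
  obtain ⟨β, D, hβ1, hD0, hDβ, hpar⟩ := exists_params3 m hm (2 * m * Cq) (2 * μ) (by positivity)
    (by positivity)
  have hβ0 : 0 < β := by linarith
  set b : ℝ := 2 * β with hb
  have hb1 : 1 ≤ b := by linarith
  have hb0 : 0 < b := by linarith
  have hDb : D * 2 ^ (m-3) ≤ b ^ 2 := by nlinarith
  -- the polynomial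
  set p : ℝ[X] := -(C (b ^ 2) * (X - C 1) ^ 2) - C D * (X - C 1) ^ 2 * X ^ (m-3) with hp
  have hpe : ∀ s, p.eval s = -(b ^ 2 * (s - 1) ^ 2) - D * (s - 1) ^ 2 * s ^ (m-3) := by
    intro s; simp [hp]
  have hpdeg : ∀ A : ℝ, ∀ n, m ≤ n → (C A + p).coeff n = 0 := by
    intro A n hn
    apply coeff_eq_zero_of_natDegree_lt
    have h1 : natDegree ((X - C 1 : ℝ[X]) ^ 2) ≤ 2 := by
      refine (natDegree_pow_le).trans ?_
      rw [natDegree_X_sub_C]
    have h2 : natDegree (C D * (X - C 1 : ℝ[X]) ^ 2 * X ^ (m-3)) ≤ 2 + (m - 3) := by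
      refine natDegree_mul_le.trans ?_
      rw [natDegree_X_pow]
      exact Nat.add_le_add_right ((natDegree_C_mul_le _ _).trans h1) _
    have h3 : natDegree (-(C (b ^ 2) * (X - C 1 : ℝ[X]) ^ 2)) ≤ 2 := by
      rw [natDegree_neg]
      exact (natDegree_C_mul_le _ _).trans h1
    have h4 : natDegree (C A + p) ≤ m - 1 := by
      refine (natDegree_add_le _ _).trans (max_le (by simp) ?_)
      refine (natDegree_sub_le _ _).trans (max_le (h3.trans (by omega)) (h2.trans (by omega)))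
    omega
  set A0 : ℝ := Real.log (μ * b) with hA0
  have hA0e : Real.exp A0 = μ * b := Real.exp_log (by positivity)
  have hQ : Continuous fun s => p.eval s := p.continuous
  set U : ℝ → ℝ := fun s => A0 + 1 - b ^ 2 * (s - 1) ^ 2 with hU
  set ρ : ℝ → ℝ := fun s => W s * Real.exp (U s) with hρ
  have hUc : Continuous U := by rw [hU]; fun_prop
  have hρc : Continuous ρ := by rw [hρ]; fun_prop
  have hρ0 : ∀ s, 0 ≤ s → 0 ≤ ρ s := fun s hs => mul_nonneg (hW0 s) (Real.exp_pos _).le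
  have hR : ∀ t, |ρ t| ≤ K * Real.exp ((A0 + 1) + 5/4) := fun t =>
    rho_boundW hK hW0 hWK hβ1 (A0 + 1) t
  set d : ℝ := (-1) ^ m * (2 * m) with hd
  obtain ⟨w, hwc, hweq, hwA, hwU⟩ := exists_family2 m hm1 d ρ U hR hρc hUc (fun s => p.eval s) hQ
  have hgS : ∀ A, Continuous (fun t => ρ t * psi 0 (w A t - U t)) := fun A =>
    hρc.mul ((psi_continuous 0).comp ((hwc A).sub hUc))
  -- main estimate
  have hest : ∀ A, A ≤ A0 → ∀ s, 0 ≤ s →
      2 * m * (Tp m)^[m] (fun t => W t * Real.exp (A + 1 - b ^ 2 * (t - 1) ^ 2)) s ≤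
        1 + D * (s - 1) ^ 2 * s ^ (m-3) := by
    intro A hA s hs
    have hAe : Real.exp A ≤ 2 * μ * β := by
      have : Real.exp A ≤ Real.exp A0 := Real.exp_le_exp.2 hA
      rw [hA0e, hb] at this
      linarith
    refine le_trans ?_ (hpar A hAe s hs)
    have h1 : (Tp m)^[m] (fun t => W t * Real.exp (A + 1 - b ^ 2 * (t - 1) ^ 2)) s ≤
        (Tp m)^[m] (fun t => Cq * Real.exp (A + 1 - β ^ 2 * (t - 1) ^ 2)) s :=
      itTp_mono m m (by fun_prop) (by fun_prop) (fun t ht => weight_boundW hK hWK hβ1 (A + 1) ht) hs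
    rw [itTp_const_mul] at h1
    have h2 := mul_le_mul_of_nonneg_left h1 (by positivity : (0:ℝ) ≤ 2 * m)
    refine h2.trans (le_of_eq ?_)
    ring
  have hρe : ∀ A s, ρ s * Real.exp ((A + 1 - b ^ 2 * (s - 1) ^ 2) - U s) =
      W s * Real.exp (A + 1 - b ^ 2 * (s - 1) ^ 2) := by
    intro A s
    rw [hρ]
    simp only
    rw [mul_assoc, ← Real.exp_add]
    congr 2; ring
  have hpsi0 : ∀ A, ∀ s, 0 ≤ s → 0 ≤ (Tp m)^[m] (fun t => ρ t * psi 0 (w A t - U t)) s :=
    fun A s hs => itTp_nonneg m m (fun t ht => mul_nonneg (hρ0 t ht) (psi_nonneg _ _)) hs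
  -- upper bound
  have hup : ∀ A, A ≤ A0 → ∀ s, 0 ≤ s → w A s ≤ A + 1 - b ^ 2 * (s - 1) ^ 2 := by
    intro A hA
    rcases Nat.even_or_odd m with hme | hmo
    · have hd1 : d = 2 * m := by rw [hd, hme.neg_one_pow, one_mul]
      refine hwU (by rw [hd1]; positivity) A (fun s => A + 1 - b ^ 2 * (s - 1) ^ 2)
        (fun s => W s * Real.exp (A + 1 - b ^ 2 * (s - 1) ^ 2)) (by fun_prop) (by fun_prop) ?_ hρ0
        (fun s _ => (hρe A s).le) ?_
      · intro s hs
        have : 0 ≤ D * (s - 1) ^ 2 * s ^ (m-3) := by positivity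
        simp only [hpe]
        linarith
      · intro s hs
        have := hest A hA s hs
        rw [hd1]
        simp only [hpe]
        linarith
    · intro s hs
      have hd1 : d = -(2 * m) := by rw [hd, hmo.neg_one_pow]; ring
      rw [hweq, hd1, hpe]
      have h1 := mul_nonneg (by positivity : (0:ℝ) ≤ 2 * m) (hpsi0 A s hs)
      have h2 : 0 ≤ D * (s - 1) ^ 2 * s ^ (m-3) := by positivity
      linarith
  have hlow : ∀ A, A ≤ A0 → ∀ s, 0 ≤ s →
      A + p.eval s - (1 + D * (s - 1) ^ 2 * s ^ (m-3)) ≤ w A s := by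
    intro A hA s hs
    have h2 : 0 ≤ D * (s - 1) ^ 2 * s ^ (m-3) := by positivity
    rcases Nat.even_or_odd m with hme | hmo
    · have hd1 : d = 2 * m := by rw [hd, hme.neg_one_pow, one_mul]
      rw [hweq, hd1]
      have h1 := mul_nonneg (by positivity : (0:ℝ) ≤ 2 * m) (hpsi0 A s hs)
      linarith
    · have hd1 : d = -(2 * m) := by rw [hd, hmo.neg_one_pow]; ring
      rw [hweq, hd1]
      have h3 : (Tp m)^[m] (fun t => ρ t * psi 0 (w A t - U t)) s ≤
          (Tp m)^[m] (fun t => W t * Real.exp (A + 1 - b ^ 2 * (t - 1) ^ 2)) s := by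
        refine itTp_mono m m (hgS A) (by fun_prop) (fun t ht => ?_) hs
        rw [← hρe A t]
        refine mul_le_mul_of_nonneg_left ?_ (hρ0 t ht)
        refine (psi_le_exp _ _).trans (Real.exp_le_exp.2 ?_)
        have := hup A hA t ht
        linarith
      have h4 := mul_le_mul_of_nonneg_left h3 (by positivity : (0:ℝ) ≤ 2 * m)
      have h5 := hest A hA s hs
      linarith
  -- the equation
  have hgW : ∀ A, A ≤ A0 → ∀ s, 0 ≤ s → ρ s * psi 0 (w A s - U s) = W s * Real.exp (w A s) := by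
    intro A hA s hs
    have h3 : w A s - U s ≤ 0 := by
      have := hup A hA s hs
      rw [hU]
      simp only
      linarith
    have h4 : Real.exp (U s) * Real.exp (w A s - U s) = Real.exp (w A s) := by
      rw [← Real.exp_add]; congr 1; ring
    rw [psi_eq h3, hρ]
    simp only
    rw [← h4]
    ring
  have hexp : ∀ A, ∀ x : E, Real.exp (2 * m * (w A (‖x‖ ^ 2) / (2 * m))) =
      Real.exp (w A (‖x‖ ^ 2)) := by
    intro A x; congr 1; field_simp
  have hsol : ∀ A, A ≤ A0 → ∀ φ : E → ℝ, (∀ n : ℕ, ContDiff ℝ n φ) → HasCompactSupport φ →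
      ∫ x, w A (‖x‖ ^ 2) / (2 * m) * (negLap m)^[m] φ x =
        ∫ x, Real.exp (2 * m * (w A (‖x‖ ^ 2) / (2 * m))) * W (‖x‖ ^ 2) * φ x := by
    intro A hA φ hφ hφc
    set χ := (negLap m)^[m] φ with hχ
    have hχc : Continuous χ := (itNegLap_contDiff m hφ 0).continuous
    have hχs : HasCompactSupport χ := itNegLap_support m hφc
    have h1 := weak_poly (C A + p) (hpdeg A) hφ hφc
    have h2 := weak_Tp hm1 (hgS A) hφ hφc
    rw [← hχ] at h1 h2
    have hTcc := itTp_continuous m m (hgS A)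
    have hpcc : Continuous fun s => (C A + p).eval s := (C A + p).continuous
    have hi1 : Integrable fun x : E => (C A + p).eval (‖x‖ ^ 2) * χ x :=
      ((hpcc.comp (by fun_prop : Continuous fun x : E => ‖x‖ ^ 2)).mul
        hχc).integrable_of_hasCompactSupport hχs.mul_left
    have hi2 : Integrable fun x : E => (Tp m)^[m] (fun t => ρ t * psi 0 (w A t - U t)) (‖x‖ ^ 2) *
        χ x := ((hTcc.comp (by fun_prop : Continuous fun x : E => ‖x‖ ^ 2)).mul
        hχc).integrable_of_hasCompactSupport hχs.mul_left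
    have e1 : ∀ x : E, w A (‖x‖ ^ 2) / (2 * m) * χ x = (1 / (2 * m)) *
        ((C A + p).eval (‖x‖ ^ 2) * χ x) + (d / (2 * m)) *
        ((Tp m)^[m] (fun t => ρ t * psi 0 (w A t - U t)) (‖x‖ ^ 2) * χ x) := by
      intro x
      rw [hweq]
      simp only [eval_add, eval_C]
      ring
    simp_rw [e1]
    rw [integral_add (hi1.const_mul _) (hi2.const_mul _), integral_const_mul, integral_const_mul,
      h1, h2, mul_zero, zero_add]
    have h4 : ((-1:ℝ)) ^ m * (-1) ^ m = 1 := by rw [← mul_pow]; simp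
    have h5 : (2 * (m:ℝ)) ≠ 0 := by positivity
    have h6 : d / (2 * m) * (-1) ^ m = 1 := by
      rw [hd]
      calc (-1:ℝ) ^ m * (2 * m) / (2 * m) * (-1) ^ m = ((-1:ℝ) ^ m * (-1) ^ m) *
            ((2 * m) / (2 * m)) := by ring
        _ = 1 := by rw [h4, div_self h5, one_mul]
    rw [← mul_assoc, h6, one_mul]
    refine integral_congr_ae (Eventually.of_forall fun x => ?_)
    simp only
    rw [hexp, hgW A hA _ (by positivity)]
    ring
  -- the mass
  have hFc : ∀ A, Continuous fun x : E => Real.exp (w A (‖x‖ ^ 2)) * W (‖x‖ ^ 2) := by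
    intro A
    have h1 : Continuous fun x : E => w A (‖x‖ ^ 2) :=
      (hwc A).comp (by fun_prop : Continuous fun x : E => ‖x‖ ^ 2)
    have h2 : Continuous fun x : E => W (‖x‖ ^ 2) :=
      hWc.comp (by fun_prop : Continuous fun x : E => ‖x‖ ^ 2)
    exact (Real.continuous_exp.comp h1).mul h2
  have hFm : ∀ A, AEStronglyMeasurable (fun x : E => Real.exp (w A (‖x‖ ^ 2)) * W (‖x‖ ^ 2))
      volume := fun A => (hFc A).aestronglyMeasurable
  have hF0 : ∀ A, ∀ x : E, 0 ≤ Real.exp (w A (‖x‖ ^ 2)) * W (‖x‖ ^ 2) := fun A x =>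
    mul_nonneg (Real.exp_pos _).le (hW0 _)
  have hFb : ∀ A, A ≤ A0 → ∀ x : E, Real.exp (w A (‖x‖ ^ 2)) * W (‖x‖ ^ 2) ≤
      Cq * Real.exp (A + 1 - β ^ 2 * (‖x‖ ^ 2 - 1) ^ 2) := by
    intro A hA x
    have h1 := weight_boundW hK hWK hβ1 (A + 1) (t := ‖x‖ ^ 2) (by positivity)
    refine le_trans ?_ h1
    rw [mul_comm]
    have h2 := hup A hA (‖x‖ ^ 2) (by positivity)
    exact mul_le_mul_of_nonneg_left (Real.exp_le_exp.2 h2) (hW0 _)
  have hFi : ∀ A, A ≤ A0 →
      Integrable (fun x : E => Real.exp (w A (‖x‖ ^ 2)) * W (‖x‖ ^ 2)) := fun A hA =>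
    ((integrable_bump E hβ1 (A + 1)).const_mul Cq).mono' (hFm A) (Eventually.of_forall fun x => by
      rw [Real.norm_of_nonneg (hF0 A x)]; exact hFb A hA x)
  set G : ℝ → ℝ := fun A => ∫ x : E, Real.exp (w A (‖x‖ ^ 2)) * W (‖x‖ ^ 2) with hG
  have hGc : ContinuousOn G (Iic A0) := by
    refine continuousOn_of_dominated
      (bound := fun x => Cq * Real.exp (A0 + 1 - β ^ 2 * (‖x‖ ^ 2 - 1) ^ 2))
      (fun A _ => hFm A) (fun A hA => Eventually.of_forall fun x => ?_)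
      ((integrable_bump E hβ1 (A0 + 1)).const_mul Cq) (Eventually.of_forall fun x => ?_)
    · rw [Real.norm_of_nonneg (hF0 A x)]
      refine (hFb A hA x).trans (mul_le_mul_of_nonneg_left (Real.exp_le_exp.2 ?_) hCq0.le)
      have : A ≤ A0 := hA
      linarith
    · exact ((Real.continuous_exp.comp (hwA _)).mul continuous_const).continuousOn
  -- lower bound at A0
  have hGA0 : V ≤ G A0 := by
    set S : Set E := {x : E | 1 ≤ ‖x‖ ^ 2 ∧ ‖x‖ ^ 2 ≤ 1 + 1 / b} with hS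
    have hSm : MeasurableSet S := by
      apply IsClosed.measurableSet
      exact (isClosed_le continuous_const (by fun_prop : Continuous fun x : E => ‖x‖ ^ 2)).inter
        (isClosed_le (by fun_prop : Continuous fun x : E => ‖x‖ ^ 2) continuous_const)
    have hSfin : volume S ≠ ⊤ := by
      refine ((measure_mono (t := Metric.closedBall (0:E) 2) ?_).trans_lt
        measure_closedBall_lt_top).ne
      rintro x ⟨-, hx⟩
      rw [mem_closedBall_zero_iff]
      have : 1 / b ≤ 1 := by rw [div_le_one hb0]; exact hb1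
      nlinarith [norm_nonneg x]
    have h1 : ∫ x in S, Real.exp (A0 - 4) ≤
        ∫ x in S, Real.exp (w A0 (‖x‖ ^ 2)) * W (‖x‖ ^ 2) := by
      refine setIntegral_mono_on (integrableOn_const hSfin) (hFi A0 le_rfl).integrableOn hSm ?_
      intro x hx
      have hq1 : (1:ℝ) ≤ W (‖x‖ ^ 2) := hW1 _ hx.1
      refine le_trans (Real.exp_le_exp.2 ?_) (le_mul_of_one_le_right (Real.exp_pos _).le hq1)
      refine le_trans ?_ (hlow A0 le_rfl _ (by positivity))
      rw [hpe]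
      set s : ℝ := ‖x‖ ^ 2 with hs
      have hx1 : 0 ≤ s - 1 := by linarith [hx.1]
      have hx2 : s - 1 ≤ 1 / b := by linarith [hx.2]
      have h3 : (s - 1) ^ 2 ≤ (1 / b) ^ 2 := pow_le_pow_left₀ hx1 hx2 2
      have h4 : b ^ 2 * (s - 1) ^ 2 ≤ 1 := by
        calc b ^ 2 * (s - 1) ^ 2 ≤ b ^ 2 * (1 / b) ^ 2 := by gcongr
          _ = 1 := by field_simp
      have h5 : s ≤ 2 := by
        have : 1 / b ≤ 1 := by rw [div_le_one hb0]; exact hb1
        linarith
      have h6 : D * (s - 1) ^ 2 * s ^ (m-3) ≤ 1 := by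
        calc D * (s - 1) ^ 2 * s ^ (m-3) ≤ D * (1 / b) ^ 2 * 2 ^ (m-3) := by
              have : 0 ≤ s := by linarith
              gcongr
          _ = (D * 2 ^ (m-3)) * (1 / b) ^ 2 := by ring
          _ ≤ b ^ 2 * (1 / b) ^ 2 := by gcongr
          _ = 1 := by field_simp
      linarith
    have h2 : ∫ x in S, Real.exp (w A0 (‖x‖ ^ 2)) * W (‖x‖ ^ 2) ≤ G A0 :=
      setIntegral_le_integral (hFi A0 le_rfl) (Eventually.of_forall fun x => hF0 A0 x)
    have h3 := shell_volume E hm1 hfin hb1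
    rw [setIntegral_const, smul_eq_mul] at h1
    have h4 : V ≤ volume.real S * Real.exp (A0 - 4) := by
      have h5 : Real.exp (A0 - 4) = μ * b / Real.exp 4 := by rw [Real.exp_sub, hA0e]
      rw [h5]
      have h6 : ω / b ≤ volume.real S := h3
      calc V = (ω / b) * (μ * b / Real.exp 4) := by rw [hμ]; field_simp
        _ ≤ volume.real S * (μ * b / Real.exp 4) := by gcongr
    linarith
  -- upper bound for very negative A
  set C0 : ℝ := ∫ x : E, Cq * Real.exp (1 - β ^ 2 * (‖x‖ ^ 2 - 1) ^ 2) with hC0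
  have hC00 : 0 ≤ C0 := integral_nonneg fun x => by positivity
  set A1 : ℝ := min A0 (Real.log (V / (C0 + 1))) with hA1
  have hGA1 : G A1 ≤ V := by
    have h1 : G A1 ≤ ∫ x : E, Real.exp A1 * (Cq * Real.exp (1 - β ^ 2 * (‖x‖ ^ 2 - 1) ^ 2)) := by
      refine integral_mono (hFi A1 (min_le_left _ _))
        (((integrable_bump E hβ1 1).const_mul Cq).const_mul _) fun x => ?_
      refine (hFb A1 (min_le_left _ _) x).trans (le_of_eq ?_)
      have : Real.exp (A1 + 1 - β ^ 2 * (‖x‖ ^ 2 - 1) ^ 2) =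
          Real.exp A1 * Real.exp (1 - β ^ 2 * (‖x‖ ^ 2 - 1) ^ 2) := by
        rw [← Real.exp_add]; congr 1; ring
      rw [this]; ring
    rw [integral_const_mul] at h1
    have h2 : Real.exp A1 ≤ V / (C0 + 1) := by
      calc Real.exp A1 ≤ Real.exp (Real.log (V / (C0 + 1))) := Real.exp_le_exp.2 (min_le_right _ _)
        _ = _ := Real.exp_log (by positivity)
    calc G A1 ≤ Real.exp A1 * C0 := h1
      _ ≤ V / (C0 + 1) * (C0 + 1) := by gcongr; linarith
      _ = V := by field_simp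
  obtain ⟨A, hA, hAV⟩ := intermediate_value_Icc (min_le_left A0 (Real.log (V / (C0 + 1))))
    (hGc.mono fun x hx => hx.2) ⟨hGA1, hGA0⟩
  have hAA0 : A ≤ A0 := hA.2
  refine ⟨fun x => w A (‖x‖ ^ 2) / (2 * m), ?_, ?_, hsol A hAA0, ?_, ?_⟩
  · exact ((hwc A).comp (by fun_prop : Continuous fun x : E => ‖x‖ ^ 2)).div_const _
  · intro x y hxy
    simp only [hxy]
  · simp only [hexp]
    exact hFi A hAA0
  · simp only [hexp]
    exact hAV

end Pool.Agent.X282.QV
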