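import Pool.Agent.X282.QV.GenD

set_option autoImplicit false

namespace Pool.Agent.X282.QV

open MeasureTheory Filter Topology Set

lemma rpow_le_exp {q : ℝ} (hq : 0 ≤ q) {x : ℝ} (hx : 0 ≤ x) :
    x ^ q ≤ ((⌈q⌉₊).factorial : ℝ) * Real.exp 1 * Real.exp x := by
  have h1 : x ^ q ≤ (1 + x) ^ q := Real.rpow_le_rpow hx (by linarith) hq
  have h2 : (1 + x) ^ q ≤ (1 + x) ^ ((⌈q⌉₊ : ℕ) : ℝ) :=
    Real.rpow_le_rpow_of_exponent_le (by linarith) (Nat.le_ceil q)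
  rw [Real.rpow_natCast] at h2
  have h3 := pow_le_fac ⌈q⌉₊ (t := 1 + x) (by linarith)
  rw [Real.exp_add] at h3
  calc x ^ q ≤ _ := h1.trans h2
    _ ≤ _ := h3
    _ = _ := by ring

theorem weightedReal (m : ℕ) (hm : 3 ≤ m) (α : ℝ) (hα : 0 ≤ α) (V : ℝ) (hV : 0 < V) :
    ∃ u : EuclideanSpace ℝ (Fin (2 * m)) → ℝ, Continuous u ∧
    (∀ x y, ‖x‖ = ‖y‖ → u x = u y) ∧
    (∀ φ : EuclideanSpace ℝ (Fin (2 * m)) → ℝ, (∀ n : ℕ, ContDiff ℝ n φ) → HasCompactSupport φ →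
      ∫ x, u x * (negLap m)^[m] φ x =
        ∫ x, Real.exp (2 * m * u x) * ‖x‖ ^ (2 * m * α) * φ x) ∧
    Integrable (fun x => Real.exp (2 * m * u x) * ‖x‖ ^ (2 * m * α)) ∧
    ∫ x, Real.exp (2 * m * u x) * ‖x‖ ^ (2 * m * α) = V := by
  have hq : 0 ≤ (m:ℝ) * α := by positivity
  have hK : 0 < ((⌈(m:ℝ) * α⌉₊).factorial : ℝ) * Real.exp 1 := by
    have : (0:ℝ) < (⌈(m:ℝ) * α⌉₊).factorial := by exact_mod_cast Nat.factorial_pos _
    positivity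
  obtain ⟨u, h1, h2, h3, h4, h5⟩ := weightedW m hm (fun t => |t| ^ ((m:ℝ) * α))
    (continuous_abs.rpow_const fun _ => Or.inr hq) (fun t => Real.rpow_nonneg (abs_nonneg _) _)
    _ hK (fun t => rpow_le_exp hq (abs_nonneg t))
    (fun t ht => by
      rw [abs_of_nonneg (by linarith)]
      exact Real.one_le_rpow ht hq) V hV
  have e : ∀ x : EuclideanSpace ℝ (Fin (2 * m)),
      |‖x‖ ^ 2| ^ ((m:ℝ) * α) = ‖x‖ ^ (2 * m * α) := by
    intro x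
    rw [abs_of_nonneg (by positivity), ← Real.rpow_natCast ‖x‖ 2, ← Real.rpow_mul (norm_nonneg x)]
    congr 1
    push_cast
    ring
  simp only [e] at h3 h4 h5
  exact ⟨u, h1, h2, h3, h4, h5⟩

end Pool.Agent.X282.QV
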