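import Mathlib

set_option autoImplicit false

namespace Pool.Agent.X282.QV

open MeasureTheory intervalIntegral Set Filter Topology

/-- the averaging operator `f ↦ ∫_0^1 t^j f(st) dt` -/
noncomputable def Aop (j : ℕ) (f : ℝ → ℝ) (s : ℝ) : ℝ := ∫ t in (0:ℝ)..1, t ^ j * f (s * t)

/-- the right inverse of `4 s W'' + 4 m W'` -/
noncomputable def Tp (m : ℕ) (f : ℝ → ℝ) (s : ℝ) : ℝ := ∫ t in (0:ℝ)..s, (1/4) * Aop (m-1) f t

/-- the radial Laplacian in the variable `s = |x|^2` -/
noncomputable def Lr (m : ℕ) (W : ℝ → ℝ) (s : ℝ) : ℝ :=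
  4 * s * deriv (deriv W) s + 4 * m * deriv W s

lemma continuous_Aop (j : ℕ) {f : ℝ → ℝ} (hf : Continuous f) : Continuous (Aop j f) := by
  unfold Aop
  refine continuous_parametric_intervalIntegral_of_continuous' (f := fun s t => t ^ j * f (s * t)) ?_ 0 1
  fun_prop

lemma hasDerivAt_Aop (j : ℕ) {f : ℝ → ℝ} (hf : ContDiff ℝ 1 f) (s : ℝ) :
    HasDerivAt (Aop j f) (Aop (j+1) (deriv f) s) s := by
  have hfc : Continuous f := hf.continuous
  have hf'c : Continuous (deriv f) := hf.continuous_deriv le_rfl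
  have hd : Differentiable ℝ f := hf.differentiable one_ne_zero
  obtain ⟨C, hC⟩ := (isCompact_Icc (a := -(|s|+1)) (b := |s|+1)).exists_bound_of_continuousOn
    hf'c.continuousOn
  have := intervalIntegral.hasDerivAt_integral_of_dominated_loc_of_deriv_le
    (μ := volume) (a := 0) (b := 1) (F := fun s t => t ^ j * f (s * t))
    (F' := fun s t => t ^ (j+1) * deriv f (s * t)) (x₀ := s) (s := Metric.ball s 1)
    (bound := fun _ => C) (Metric.ball_mem_nhds s one_pos)
    (Eventually.of_forall fun x => (by fun_prop : Continuous fun t => t ^ j * f (x * t)).aestronglyMeasurable)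
    ((by fun_prop : Continuous fun t => t ^ j * f (s * t)).intervalIntegrable _ _)
    (by fun_prop : Continuous fun t => t ^ (j+1) * deriv f (s * t)).aestronglyMeasurable
    ?_ (by simp) ?_
  · exact this.2
  · refine Eventually.of_forall fun t ht x hx => ?_
    rw [uIoc_of_le zero_le_one] at ht
    rw [Metric.mem_ball, Real.dist_eq] at hx
    have h1 : |x| ≤ |s| + 1 := by
      have := abs_sub_abs_le_abs_sub x s
      linarith
    have h2 : |x * t| ≤ |s| + 1 := by
      rw [abs_mul, abs_of_pos ht.1]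
      nlinarith [abs_nonneg x, ht.1, ht.2]
    have h3 := hC (x * t) (abs_le.1 h2)
    rw [norm_mul, norm_pow, Real.norm_of_nonneg ht.1.le]
    have h4 : t ^ (j+1) ≤ 1 := pow_le_one₀ ht.1.le ht.2
    have h5 : 0 ≤ t ^ (j+1) := pow_nonneg ht.1.le _
    nlinarith [norm_nonneg (deriv f (x * t))]
  · refine Eventually.of_forall fun t ht x hx => ?_
    have h1 : HasDerivAt (fun x => x * t) t x := by simpa using (hasDerivAt_id x).mul_const t
    have h2 := (hd (x * t)).hasDerivAt.comp x h1
    have h3 := h2.const_mul (t ^ j)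
    refine h3.congr_deriv ?_
    ring

lemma contDiff_Aop (n : ℕ) : ∀ (j : ℕ) {f : ℝ → ℝ}, ContDiff ℝ n f → ContDiff ℝ n (Aop j f) := by
  induction n with
  | zero =>
    intro j f hf
    rw [Nat.cast_zero, contDiff_zero] at hf ⊢
    exact continuous_Aop j hf
  | succ n ih =>
    intro j f hf
    have hf1 : ContDiff ℝ 1 f := hf.of_le (by exact_mod_cast Nat.le_add_left 1 n)
    have h1 : deriv (Aop j f) = Aop (j+1) (deriv f) := funext fun s => (hasDerivAt_Aop j hf1 s).deriv
    rw [Nat.cast_add, Nat.cast_one, contDiff_succ_iff_deriv] at hf ⊢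
    refine ⟨fun s => (hasDerivAt_Aop j hf1 s).differentiableAt, by simp, ?_⟩
    rw [h1]
    exact ih (j+1) hf.2.2

lemma hasDerivAt_Tp (m : ℕ) {f : ℝ → ℝ} (hf : Continuous f) (s : ℝ) :
    HasDerivAt (Tp m f) ((1/4) * Aop (m-1) f s) s := by
  have hc : Continuous fun t => (1/4) * Aop (m-1) f t := continuous_const.mul (continuous_Aop _ hf)
  exact intervalIntegral.integral_hasDerivAt_right (hc.intervalIntegrable _ _)
    (hc.stronglyMeasurableAtFilter _ _) hc.continuousAt

lemma deriv_Tp (m : ℕ) {f : ℝ → ℝ} (hf : Continuous f) :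
    deriv (Tp m f) = fun s => (1/4) * Aop (m-1) f s :=
  funext fun s => (hasDerivAt_Tp m hf s).deriv

lemma contDiff_Tp (m n : ℕ) {f : ℝ → ℝ} (hf : ContDiff ℝ n f) : ContDiff ℝ (n+1) (Tp m f) := by
  rw [contDiff_succ_iff_deriv]
  refine ⟨fun s => (hasDerivAt_Tp m hf.continuous s).differentiableAt, by simp, ?_⟩
  rw [deriv_Tp m hf.continuous]
  exact contDiff_const.mul (contDiff_Aop n _ hf)

lemma continuous_Tp (m : ℕ) {f : ℝ → ℝ} (hf : Continuous f) : Continuous (Tp m f) := by
  have := contDiff_Tp m 0 (f := f) (by simpa using hf)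
  exact this.continuous

lemma contDiff_top_iff {f : ℝ → ℝ} : ContDiff ℝ (⊤ : ℕ∞) f ↔ ∀ n : ℕ, ContDiff ℝ n f := by
  exact_mod_cast contDiff_infty

lemma contDiff_Tp_top (m : ℕ) {f : ℝ → ℝ} (hf : ContDiff ℝ (⊤ : ℕ∞) f) :
    ContDiff ℝ (⊤ : ℕ∞) (Tp m f) := by
  rw [contDiff_top_iff] at hf ⊢
  intro n
  exact (contDiff_Tp m n (hf n)).of_le (by exact_mod_cast Nat.le_succ n)

/-- integration by parts -/
lemma Aop_parts (j : ℕ) {f : ℝ → ℝ} (hf : ContDiff ℝ 1 f) (s : ℝ) :
    s * Aop (j+1) (deriv f) s = f s - (j+1) * Aop j f s := by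
  have hfc : Continuous f := hf.continuous
  have hf'c : Continuous (deriv f) := hf.continuous_deriv le_rfl
  have hd : Differentiable ℝ f := hf.differentiable one_ne_zero
  have h1 : ∀ t ∈ uIcc (0:ℝ) 1, HasDerivAt (fun t => t ^ (j+1) * f (s * t))
      ((j+1) * (t ^ j * f (s * t)) + s * (t ^ (j+1) * deriv f (s * t))) t := by
    intro t _
    have h2 : HasDerivAt (fun t => s * t) s t := by simpa using (hasDerivAt_id t).const_mul s
    have h3 := (hd (s * t)).hasDerivAt.comp t h2
    have h4 := (hasDerivAt_pow (j+1) t).mul h3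
    refine h4.congr_deriv ?_
    simp only [Nat.add_sub_cancel, Nat.cast_add, Nat.cast_one, Function.comp]
    ring
  have hc1 : Continuous fun t => ((j:ℝ)+1) * (t ^ j * f (s * t)) := by fun_prop
  have hc2 : Continuous fun t => s * (t ^ (j+1) * deriv f (s * t)) := by fun_prop
  have h5 := intervalIntegral.integral_eq_sub_of_hasDerivAt h1
    ((hc1.add hc2).intervalIntegrable _ _)
  rw [intervalIntegral.integral_add (hc1.intervalIntegrable _ _) (hc2.intervalIntegrable _ _),
    intervalIntegral.integral_const_mul, intervalIntegral.integral_const_mul] at h5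
  simp only [one_pow, mul_one, one_mul, ne_eq, Nat.add_eq_zero_iff, one_ne_zero, and_false,
    not_false_eq_true, zero_pow, zero_mul, sub_zero] at h5
  unfold Aop
  linarith

lemma Lr_Tp (m : ℕ) (hm : 1 ≤ m) {f : ℝ → ℝ} (hf : ContDiff ℝ 1 f) (s : ℝ) :
    Lr m (Tp m f) s = f s := by
  unfold Lr
  rw [deriv_Tp m hf.continuous]
  have h1 : HasDerivAt (fun s => (1/4) * Aop (m-1) f s) ((1/4) * Aop (m-1+1) (deriv f) s) s :=
    (hasDerivAt_Aop (m-1) hf s).const_mul _
  rw [h1.deriv]
  have h2 := Aop_parts (m-1) hf s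
  have h3 : ((m-1 : ℕ) : ℝ) + 1 = m := by
    rw [Nat.cast_sub hm]; simp
  rw [h3] at h2
  linear_combination h2

lemma Aop_nonneg (j : ℕ) {f : ℝ → ℝ} (hf : ∀ s, 0 ≤ s → 0 ≤ f s) {s : ℝ} (hs : 0 ≤ s) :
    0 ≤ Aop j f s := by
  unfold Aop
  refine intervalIntegral.integral_nonneg zero_le_one fun t ht => ?_
  exact mul_nonneg (pow_nonneg ht.1 _) (hf _ (mul_nonneg hs ht.1))

lemma Aop_sub (j : ℕ) {f g : ℝ → ℝ} (hf : Continuous f) (hg : Continuous g) (s : ℝ) :
    Aop j (fun t => f t - g t) s = Aop j f s - Aop j g s := by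
  unfold Aop
  rw [← intervalIntegral.integral_sub]
  · congr 1; ext t; ring
  · exact (by fun_prop : Continuous fun t => t ^ j * f (s * t)).intervalIntegrable _ _
  · exact (by fun_prop : Continuous fun t => t ^ j * g (s * t)).intervalIntegrable _ _

lemma Tp_sub (m : ℕ) {f g : ℝ → ℝ} (hf : Continuous f) (hg : Continuous g) (s : ℝ) :
    Tp m (fun t => f t - g t) s = Tp m f s - Tp m g s := by
  unfold Tp
  rw [← intervalIntegral.integral_sub]
  · congr 1; ext t; rw [Aop_sub _ hf hg]; ring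
  · exact (continuous_const.mul (continuous_Aop _ hf)).intervalIntegrable _ _
  · exact (continuous_const.mul (continuous_Aop _ hg)).intervalIntegrable _ _

lemma Tp_const_mul (m : ℕ) (c : ℝ) (f : ℝ → ℝ) (s : ℝ) :
    Tp m (fun t => c * f t) s = c * Tp m f s := by
  unfold Tp Aop
  rw [← intervalIntegral.integral_const_mul]
  congr 1; ext t
  rw [← intervalIntegral.integral_const_mul, ← intervalIntegral.integral_const_mul,
    ← intervalIntegral.integral_const_mul]
  congr 1; ext u; ring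

lemma Tp_nonneg (m : ℕ) {f : ℝ → ℝ} (hf : ∀ s, 0 ≤ s → 0 ≤ f s) {s : ℝ} (hs : 0 ≤ s) :
    0 ≤ Tp m f s := by
  unfold Tp
  refine intervalIntegral.integral_nonneg hs fun t ht => ?_
  exact mul_nonneg (by norm_num) (Aop_nonneg _ hf ht.1)

lemma Tp_mono (m : ℕ) {f g : ℝ → ℝ} (hf : Continuous f) (hg : Continuous g)
    (h : ∀ s, 0 ≤ s → f s ≤ g s) {s : ℝ} (hs : 0 ≤ s) : Tp m f s ≤ Tp m g s := by
  have := Tp_nonneg m (f := fun t => g t - f t) (fun s hs => sub_nonneg.2 (h s hs)) hs
  rw [Tp_sub m hg hf] at this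
  linarith

/-- exponential bound -/
lemma Tp_bound (m : ℕ) {f : ℝ → ℝ} (hf : Continuous f) {C κ : ℝ} (hC : 0 ≤ C) (hκ : 0 < κ)
    (h : ∀ s, |f s| ≤ C * Real.exp (κ * |s|)) (s : ℝ) :
    |Tp m f s| ≤ C * (1 / (4 * κ)) * Real.exp (κ * |s|) := by
  have hA : ∀ t, |Aop (m-1) f t| ≤ C * Real.exp (κ * |t|) := by
    intro t
    unfold Aop
    have := intervalIntegral.norm_integral_le_of_norm_le_const (a := 0) (b := 1)
      (f := fun u => u ^ (m-1) * f (t * u)) (C := C * Real.exp (κ * |t|)) ?_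
    · simpa using this
    · intro u hu
      rw [uIoc_of_le zero_le_one] at hu
      rw [Real.norm_eq_abs, abs_mul, abs_pow, abs_of_pos hu.1]
      have h1 : u ^ (m-1) ≤ 1 := pow_le_one₀ hu.1.le hu.2
      have h2 : 0 ≤ u ^ (m-1) := pow_nonneg hu.1.le _
      have h3 : |f (t * u)| ≤ C * Real.exp (κ * |t|) := by
        refine (h _).trans ?_
        refine mul_le_mul_of_nonneg_left (Real.exp_le_exp.2 ?_) hC
        refine mul_le_mul_of_nonneg_left ?_ hκ.le
        rw [abs_mul, abs_of_pos hu.1]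
        nlinarith [abs_nonneg t, hu.2]
      nlinarith [abs_nonneg (f (t * u))]
  have key : ∀ s : ℝ, 0 ≤ s → ∀ g : ℝ → ℝ, Continuous g →
      (∀ t, 0 ≤ t → |g t| ≤ (C/4) * Real.exp (κ * t)) →
      |∫ t in (0:ℝ)..s, g t| ≤ C * (1 / (4 * κ)) * Real.exp (κ * s) := by
    intro s hs g hg hgb
    have h1 := intervalIntegral.norm_integral_le_of_norm_le (a := 0) (b := s) (f := g)
      (g := fun t => (C/4) * Real.exp (κ * t)) (μ := volume) hs
      (Eventually.of_forall fun t ht => by simpa using hgb t ht.1.le)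
      ((by fun_prop : Continuous fun t => (C/4) * Real.exp (κ * t)).intervalIntegrable _ _)
    have h2 : ∫ t in (0:ℝ)..s, (C/4) * Real.exp (κ * t) =
        C * (1 / (4 * κ)) * (Real.exp (κ * s) - 1) := by
      have hder : ∀ t ∈ uIcc (0:ℝ) s, HasDerivAt (fun t => C * (1 / (4 * κ)) * Real.exp (κ * t))
          ((C/4) * Real.exp (κ * t)) t := by
        intro t _
        have h3 : HasDerivAt (fun t => κ * t) κ t := by simpa using (hasDerivAt_id t).const_mul κ
        have h4 := h3.exp.const_mul (C * (1 / (4 * κ)))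
        refine h4.congr_deriv ?_
        field_simp
      rw [intervalIntegral.integral_eq_sub_of_hasDerivAt hder
        ((by fun_prop : Continuous fun t => (C/4) * Real.exp (κ * t)).intervalIntegrable _ _)]
      simp
      ring
    rw [h2] at h1
    rw [Real.norm_eq_abs] at h1
    refine h1.trans ?_
    refine mul_le_mul_of_nonneg_left (by linarith) (by positivity)
  have hcont : Continuous fun t => (1/4) * Aop (m-1) f t := continuous_const.mul (continuous_Aop _ hf)
  rcases le_total 0 s with hs | hs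
  · rw [abs_of_nonneg hs]
    refine key s hs _ hcont fun t ht => ?_
    rw [abs_mul, abs_of_pos (by norm_num : (0:ℝ) < 1/4)]
    have := hA t
    rw [abs_of_nonneg ht] at this
    linarith
  · have h1 : Tp m f s = -∫ t in (0:ℝ)..(-s), (1/4) * Aop (m-1) f (-t) := by
      unfold Tp
      rw [intervalIntegral.integral_comp_neg (fun t => (1/4) * Aop (m-1) f t)]
      rw [neg_neg, neg_zero, intervalIntegral.integral_symm]
    rw [h1, abs_neg, abs_of_nonpos hs]
    refine key (-s) (by linarith) (fun t => (1/4) * Aop (m-1) f (-t)) (hcont.comp continuous_neg)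
      fun t ht => ?_
    rw [abs_mul, abs_of_pos (by norm_num : (0:ℝ) < 1/4)]
    have := hA (-t)
    rw [abs_neg, abs_of_nonneg ht] at this
    linarith

/-- comparison with the plain integral -/
lemma Tp_le_integral (m : ℕ) (hm : 2 ≤ m) {f : ℝ → ℝ} (hf : ContDiff ℝ 1 f)
    (h0 : ∀ s, 0 ≤ s → 0 ≤ f s) {s : ℝ} (hs : 0 ≤ s) : Tp m f s ≤ ∫ t in (0:ℝ)..s, f t := by
  have hfc : Continuous f := hf.continuous
  have hm' : ((m-1 : ℕ) : ℝ) + 1 = m := by
    rw [Nat.cast_sub (by omega)]; simp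
  have hd : ∀ t ∈ uIcc (0:ℝ) s, HasDerivAt (fun t => (∫ u in (0:ℝ)..t, f u) - t * Aop (m-1) f t)
      (((m:ℝ)-1) * Aop (m-1) f t) t := by
    intro t _
    have h1 : HasDerivAt (fun t => ∫ u in (0:ℝ)..t, f u) (f t) t :=
      intervalIntegral.integral_hasDerivAt_right (hfc.intervalIntegrable _ _)
        (hfc.stronglyMeasurableAtFilter _ _) hfc.continuousAt
    have h2 := (hasDerivAt_id t).mul (hasDerivAt_Aop (m-1) hf t)
    have h3 := h1.sub h2
    refine h3.congr_deriv ?_
    have h4 := Aop_parts (m-1) hf t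
    rw [hm'] at h4
    simp only [id]
    linear_combination -h4
  have hc : Continuous fun t => ((m:ℝ)-1) * Aop (m-1) f t := continuous_const.mul (continuous_Aop _ hfc)
  have h5 := intervalIntegral.integral_eq_sub_of_hasDerivAt hd (hc.intervalIntegrable _ _)
  rw [intervalIntegral.integral_const_mul] at h5
  simp only [intervalIntegral.integral_same, zero_mul, sub_zero] at h5
  have h6 : Tp m f s = (1/4) * ∫ t in (0:ℝ)..s, Aop (m-1) f t := by
    unfold Tp; rw [intervalIntegral.integral_const_mul]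
  have h7 : 0 ≤ s * Aop (m-1) f s := mul_nonneg hs (Aop_nonneg _ h0 hs)
  have h8 : 0 ≤ ∫ t in (0:ℝ)..s, Aop (m-1) f t :=
    intervalIntegral.integral_nonneg hs fun t ht => Aop_nonneg _ h0 ht.1
  have h9 : (2:ℝ) ≤ m := by exact_mod_cast hm
  rw [h6]
  nlinarith

end Pool.Agent.X282.QV
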